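import Mathlib

namespace Pool.Agent.Lib.MP_6d7b3f_co

/-- `G` has treewidth at most `k`: it has a tree decomposition with bags of size at most `k + 1`. -/
def TreewidthLE {V : Type} (G : SimpleGraph V) (k : ℕ) : Prop :=
  ∃ (t : ℕ) (T : SimpleGraph (Fin t)) (B : Fin t → Finset V),
    T.IsTree ∧ (∀ v, ∃ i, v ∈ B i) ∧ (∀ u v, G.Adj u v → ∃ i, u ∈ B i ∧ v ∈ B i) ∧
    (∀ v, (T.induce {i | v ∈ B i}).Connected) ∧ ∀ i, (B i).card ≤ k + 1

/-- `f k n` is the largest `m` such that every finite graph of treewidth at most `k` containing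
the path on `n` vertices as a subgraph contains the path on `m` vertices as an induced subgraph. -/
noncomputable def f (k n : ℕ) : ℕ :=
  sSup {m : ℕ | ∀ (N : ℕ) (G : SimpleGraph (Fin N)), TreewidthLE G k →
    (SimpleGraph.pathGraph n).IsContained G → (SimpleGraph.pathGraph m).IsIndContained G}

end Pool.Agent.Lib.MP_6d7b3f_co
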