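import Pool.Agent.Lib.MP_6d7b3f_co.Bound
import Pool.Agent.Lib.MP_6d7b3f_co.Defs

namespace Pool.Agent.Lib.MP_6d7b3f_co

open Finset
open scoped Classical

lemma reach_of_induce {ι : Type*} {T : SimpleGraph ι} {A : Set ι} (h : (T.induce A).Connected)
    {i j : ι} (hi : i ∈ A) (hj : j ∈ A) : Reach T A i j := by
  have h1 := (SimpleGraph.reachable_iff_reflTransGen _ _).1 (h.preconnected ⟨i, hi⟩ ⟨j, hj⟩)
  have : ∀ b : A, Relation.ReflTransGen (T.induce A).Adj ⟨i, hi⟩ b → Reach T A i b := by
    intro b hb
    induction hb with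
    | refl => exact Reach.refl _ _
    | @tail b c _ hbc ih => exact ih.tail hbc c.2
  exact this _ h1

lemma exists_desc {ι : Type*} {T : SimpleGraph ι} (hT : T.IsTree) :
    ∃ (d : ι → ℕ) (D : ι → ι → Prop), (∀ a, D a a) ∧
      (∀ a i j, D a i → T.Adj i j → (i ≠ a ∨ d a ≤ d j) → D a j) ∧
      ∀ a b, D a b → b ≠ a → d a < d b := by
  obtain ⟨r⟩ := hT.connected.nonempty
  choose P hP1 hP2 using fun i => hT.connected.exists_path_of_dist r i
  refine ⟨fun i => T.dist r i, fun a i => a ∈ (P i).support, fun a => (P a).end_mem_support, ?_, ?_⟩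
  · intro a i j hai hij h
    by_cases hi : i ∈ (P j).support
    · rw [hT.isAcyclic.path_concat (hP1 i) (hP1 j) hij hi, SimpleGraph.Walk.support_concat]
      simp [hai]
    · have hj := hT.isAcyclic.mem_support_of_ne_mem_support_of_adj_of_isPath (hP1 i) (hP1 j) hij hi
      have h1 := hT.isAcyclic.path_concat (hP1 j) (hP1 i) hij.symm hj
      have h2 := hP2 i
      rw [h1, SimpleGraph.Walk.length_concat, hP2 j] at h2
      rw [h1, SimpleGraph.Walk.support_concat] at hai
      simp only [List.mem_append, List.mem_singleton] at hai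
      rcases hai with h3 | h3
      · exact h3
      · exfalso
        rcases h with h | h
        · exact h h3.symm
        · rw [h3] at h
          have h' : T.dist r i ≤ T.dist r j := h
          omega
  · intro a b hab hne
    have h1 := (P b).length_takeUntil_lt_length hab hne.symm
    have h2 := SimpleGraph.dist_le ((P b).takeUntil a hab)
    have h3 := hP2 b
    show T.dist r a < T.dist r b
    omega

lemma exists_rank {n k : ℕ} (H : SimpleGraph (Fin n)) {ι : Type*} {T : SimpleGraph ι}
    (hT : T.IsTree) (B : ι → Finset (Fin n)) (hcov : ∀ v, ∃ i, v ∈ B i)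
    (hedge : ∀ u v, H.Adj u v → ∃ i, u ∈ B i ∧ v ∈ B i)
    (hconn : ∀ v i j, v ∈ B i → v ∈ B j → Reach T {i | v ∈ B i} i j)
    (hcard : ∀ i, (B i).card ≤ k + 1) :
    ∃ ρ : Fin n → ℕ, Function.Injective ρ ∧ ∀ (y : Fin n) (s : Finset (Fin n)),
      (∀ w ∈ s, ρ w < ρ y ∧ ∃ u, Reach H {z | ρ y ≤ ρ z} y u ∧ H.Adj u w) → s.card ≤ k := by
  obtain ⟨d, D, hD0, hD1, hD2⟩ := exists_desc hT
  have htop : ∀ v, ∃ a, v ∈ B a ∧ ∀ i, v ∈ B i → d a ≤ d i := by
    intro v
    obtain ⟨i0, hi0⟩ := hcov v
    have hex : ∃ c, ∃ a, v ∈ B a ∧ d a = c := ⟨_, i0, hi0, rfl⟩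
    obtain ⟨a, ha, hac⟩ := Nat.find_spec hex
    exact ⟨a, ha, fun i hi => hac ▸ Nat.find_min' hex ⟨i, hi, rfl⟩⟩
  choose top htop1 htop2 using htop
  have hle : ∀ u v : Fin n, d (top u) * n + u ≤ d (top v) * n + v → d (top u) ≤ d (top v) := by
    intro u v h
    by_contra h'
    have h1 : d (top v) + 1 ≤ d (top u) := by omega
    have h2 := Nat.mul_le_mul_right n h1
    have := v.2
    rw [Nat.succ_mul] at h2
    omega
  refine ⟨fun v => d (top v) * n + v, ?_, ?_⟩
  · intro u v h
    have h' : d (top u) * n + u = d (top v) * n + v := h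
    have h1 := le_antisymm (hle u v h'.le) (hle v u h'.ge)
    rw [h1] at h'
    exact Fin.ext (by omega)
  · intro y s hs
    set a := top y with ha
    have hwalk : ∀ (v : Fin n) (i j : ι), (∀ l, v ∈ B l → l ≠ a ∨ d a ≤ d (top v)) → v ∈ B i →
        v ∈ B j → D a i → D a j := by
      intro v i j hv hi hj hDi
      have h1 := hconn v i j hi hj
      clear hj
      induction h1 with
      | refl => exact hDi
      | @tail b c hb hbc ih =>
        refine hD1 a b c ih hbc.1 ?_
        have hbB : v ∈ B b := by
          rcases Reach.mem (G := T) hb with h | h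
          · rw [h]; exact hi
          · exact h
        rcases hv b hbB with h | h
        · exact Or.inl h
        · exact Or.inr (h.trans (htop2 v c hbc.2))
    have hC : ∀ u, Reach H {z | d (top y) * n + y ≤ d (top z) * n + z} y u →
        ∀ i, u ∈ B i → D a i := by
      intro u hu
      induction hu with
      | refl => exact fun i hi => hwalk y a i (fun _ _ => Or.inr le_rfl) (htop1 y) hi (hD0 a)
      | @tail b c _ hbc ih =>
        intro i hi
        obtain ⟨l, hl1, hl2⟩ := hedge b c hbc.1
        exact hwalk c l i (fun _ _ => Or.inr (hle y c hbc.2)) hl2 hi (ih l hl1)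
    have hsub : s ⊆ (B a).erase y := by
      intro w hw
      obtain ⟨h1, u, hu, huw⟩ := hs w hw
      have h1' : d (top w) * n + w < d (top y) * n + y := h1
      refine mem_erase.2 ⟨fun h => by rw [h] at h1'; omega, ?_⟩
      by_contra hwa
      obtain ⟨l, hl1, hl2⟩ := hedge u w huw
      have h2 := hwalk w l (top w) (fun l' hl' => Or.inl (fun h => hwa (h ▸ hl'))) hl2 (htop1 w)
        (hC u hu l hl1)
      have h3 := hD2 a (top w) h2 (fun h => hwa (h ▸ htop1 w))
      have h4 := hle w y h1'.le
      rw [← ha] at h4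
      omega
    have h1 := card_le_card hsub
    rw [card_erase_of_mem (htop1 y)] at h1
    have := hcard (top y)
    omega

lemma exists_elim {n k m : ℕ} (H : SimpleGraph (Fin (n + 1)))
    (hpath : ∀ u v : Fin (n + 1), u.val + 1 = v.val → H.Adj u v)
    (ρ : Fin (n + 1) → ℕ) (hρ : Function.Injective ρ)
    (hS : ∀ (y : Fin (n + 1)) (s : Finset (Fin (n + 1))),
      (∀ w ∈ s, ρ w < ρ y ∧ ∃ u, Reach H {z | ρ y ≤ ρ z} y u ∧ H.Adj u w) → s.card ≤ k)
    (hlen : ∀ p l, IndP H p l → l ≤ m) :
    ∃ (E : Elim H k m) (t : Fin (n + 1)), (E.C t).card = n + 1 := by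
  let C : Fin (n + 1) → Finset (Fin (n + 1)) :=
    fun y => univ.filter (fun u => Reach H {z | ρ y ≤ ρ z} y u)
  have hC : ∀ y u, u ∈ C y ↔ Reach H {z | ρ y ≤ ρ z} y u := by
    intro y u; simp [C]
  have hCρ : ∀ y u, u ∈ C y → ρ y ≤ ρ u := by
    intro y u hu
    rcases ((hC y u).1 hu).mem with h | h
    · rw [h]
    · exact h
  have hlam : ∀ u y y', ρ y ≤ ρ y' → u ∈ C y → u ∈ C y' → y' ∈ C y := by
    intro u y y' h h1 h2
    rw [hC] at h1 h2 ⊢
    exact h1.trans ((h2.symm (le_refl (ρ y'))).mono (fun z hz => h.trans hz))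
  let up : Fin (n + 1) → Fin (n + 1) := fun o => ⟨min (o.val + 1) n, by omega⟩
  let down : Fin (n + 1) → Fin (n + 1) := fun o => ⟨o.val - 1, by omega⟩
  let E : Elim H k m :=
    { C := C
      S := fun y => univ.filter (fun w => w ∉ C y ∧ ∃ u ∈ C y, H.Adj u w)
      W := fun O => insert 0 (insert (Fin.last n) (O.image up ∪ O.image down))
      self := fun y => (hC y y).2 (Reach.refl _ _)
      trans := by
        intro y y' h u hu
        have h1 := hCρ y y' h
        rw [hC] at h hu ⊢
        exact h.trans (hu.mono (fun z hz => h1.trans hz))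
      lam := by
        intro u y y' h1 h2
        rcases le_total (ρ y) (ρ y') with h | h
        · exact Or.inr (hlam u y y' h h1 h2)
        · exact Or.inl (hlam u y' y h h2 h1)
      anti := fun {y y'} h1 h2 => hρ (le_antisymm (hCρ _ _ h2) (hCρ _ _ h1))
      conn := by
        intro y u hu
        rw [hC] at hu
        induction hu with
        | refl => exact Reach.refl _ _
        | @tail b c hb hbc ih =>
          exact ih.tail hbc.1 (Finset.mem_coe.2 ((hC y c).2 (Reach.tail hb hbc.1 hbc.2)))
      edge := by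
        intro u w h
        rcases le_total (ρ u) (ρ w) with h1 | h1
        · exact Or.inr ((hC u w).2 ((Reach.refl _ _).tail h h1))
        · exact Or.inl ((hC w u).2 ((Reach.refl _ _).tail h.symm h1))
      mem_S := by intro y w; simp
      card_S := by
        intro y
        refine hS y _ ?_
        intro w hw
        obtain ⟨_, h1, u, hu, huw⟩ := mem_filter.1 hw
        refine ⟨?_, u, (hC y u).1 hu, huw⟩
        by_contra h
        exact h1 ((hC y w).2 (((hC y u).1 hu).tail huw (not_lt.1 h)))
      card_W := by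
        intro O
        have h1 := card_insert_le (0 : Fin (n + 1))
          (insert (Fin.last n) (O.image up ∪ O.image down))
        have h2 := card_insert_le (Fin.last n) (O.image up ∪ O.image down)
        have h3 := card_union_le (O.image up) (O.image down)
        have h4 : (O.image up).card ≤ O.card := card_image_le
        have h5 : (O.image down).card ≤ O.card := card_image_le
        omega
      port := by
        intro O U x hU h
        obtain ⟨u0, hu0⟩ := hU
        have hne : (univ.filter (fun u => u ∈ U)).Nonempty := ⟨u0, by simpa using hu0⟩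
        obtain ⟨s, hs, hmin⟩ := exists_min_image _ (fun u : Fin (n + 1) => u.val) hne
        obtain ⟨t, ht, hmax⟩ := exists_max_image _ (fun u : Fin (n + 1) => u.val) hne
        simp only [mem_filter, mem_univ, true_and] at hs ht hmin hmax
        by_cases hs0 : s = 0
        · exact ⟨s, by simp [hs0], hs⟩
        by_cases htn : t = Fin.last n
        · exact ⟨t, by simp [htn], ht⟩
        have hs0' : s.val ≠ 0 := fun h => hs0 (Fin.ext h)
        have htn' : t.val ≠ n := fun h => htn (Fin.ext h)
        have ht2 := t.2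
        have hst := hmin t ht
        have ha := h s hs ⟨s.val - 1, by omega⟩ (fun h' => by
          have := hmin _ h'
          simp only at this
          omega) (hpath _ _ (by simp only; omega)).symm
        have hb := h t ht ⟨t.val + 1, by omega⟩ (fun h' => by
          have := hmax _ h'
          simp only at this
          omega) (hpath _ _ rfl)
        rcases ha with ha | ha
        · refine ⟨s, ?_, hs⟩
          simp only [mem_insert, mem_union, mem_image]
          refine Or.inr (Or.inr (Or.inl ⟨_, ha, Fin.ext ?_⟩))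
          simp only [up]
          omega
        · rcases hb with hb | hb
          · refine ⟨t, ?_, ht⟩
            simp only [mem_insert, mem_union, mem_image]
            refine Or.inr (Or.inr (Or.inr ⟨_, hb, Fin.ext ?_⟩))
            simp only [down]
            omega
          · have := congrArg Fin.val (ha.trans hb.symm)
            simp only at this
            omega
      len := hlen }
  obtain ⟨r, _, hr⟩ := exists_min_image univ ρ ⟨0, mem_univ _⟩
  refine ⟨E, r, ?_⟩
  have h0 : ∀ i (hi : i < n + 1), Reach H {z | ρ r ≤ ρ z} 0 ⟨i, hi⟩ := by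
    intro i
    induction i with
    | zero => intro _; exact Reach.refl _ _
    | succ i ih => intro hi; exact (ih (by omega)).tail (hpath _ _ rfl) (hr _ (mem_univ _))
  have : E.C r = univ := by
    ext u
    simp only [mem_univ, iff_true]
    exact (hC r u).2 (((h0 r.val r.2).symm (hr _ (mem_univ _))).trans (h0 u.val u.2))
  rw [this, card_univ, Fintype.card_fin]

lemma indContained_of_indP {V : Type*} {G : SimpleGraph V} {p : ℕ → V} {l m : ℕ} (h : IndP G p l)
    (hm : m ≤ l) : (SimpleGraph.pathGraph m).IsIndContained G :=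
  ⟨{ toFun := fun i => p i.val
     inj' := fun i j hij => Fin.ext (h.1 i (by omega) j (by omega) hij)
     map_rel_iff' := by
       intro i j
       rw [SimpleGraph.pathGraph_adj]
       exact h.2 i (by omega) j (by omega) }⟩

lemma exists_elim' {N n k m : ℕ} (G : SimpleGraph (Fin N)) (hG : TreewidthLE G k)
    (hP : (SimpleGraph.pathGraph (n + 1)).IsContained G)
    (hm : ¬ (SimpleGraph.pathGraph (m + 1)).IsIndContained G) :
    ∃ (H : SimpleGraph (Fin (n + 1))) (E : Elim H k m) (t : Fin (n + 1)),
      (E.C t).card = n + 1 := by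
  obtain ⟨φ⟩ := hP
  obtain ⟨t, T, B, hT, h1, h2, h3, h4⟩ := hG
  obtain ⟨ρ, hρ, hS⟩ := exists_rank (k := k) (G.comap φ) hT
    (fun i => univ.filter (fun v => φ v ∈ B i))
    (fun v => by simpa using h1 (φ v)) (fun u v h => by simpa using h2 _ _ h)
    (fun v i j hi hj => by
      simp only [mem_filter, mem_univ, true_and] at hi hj ⊢
      exact reach_of_induce (h3 (φ v)) hi hj)
    (fun i => by
      refine le_trans (card_le_card_of_injOn φ ?_ (φ.injective.injOn)) (h4 i)
      intro v hv
      simpa using hv)
  refine ⟨G.comap φ, exists_elim (G.comap φ) ?_ ρ hρ hS ?_⟩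
  · intro u v h
    exact φ.toHom.map_adj (SimpleGraph.pathGraph_adj.2 (Or.inl h))
  · intro p l hp
    by_contra h
    refine hm (indContained_of_indP (p := fun i => φ (p i)) (l := l) ⟨?_, hp.2⟩ (by omega))
    intro i hi j hj hij
    exact hp.1 i hi j hj (φ.injective hij)

theorem lower_odd {N n j m : ℕ} (G : SimpleGraph (Fin N)) (hG : TreewidthLE G (2 * j + 1))
    (hP : (SimpleGraph.pathGraph n).IsContained G)
    (hm : ¬ (SimpleGraph.pathGraph (m + 1)).IsIndContained G) :
    n ≤ (m + 2) ^ ((3 * (2 * j + 1) + 2) * (7 * (2 * j + 1) + 13) ^ j * (m + 1) ^ j) := by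
  cases n with
  | zero => exact Nat.zero_le _
  | succ n =>
    obtain ⟨H, E, t, ht⟩ := exists_elim' G hG hP hm
    rw [← ht]
    exact Elim.card_C_odd rfl t

theorem lower_even {N n j m : ℕ} (G : SimpleGraph (Fin N)) (hG : TreewidthLE G (2 * (j + 1)))
    (hP : (SimpleGraph.pathGraph n).IsContained G)
    (hm : ¬ (SimpleGraph.pathGraph (m + 1)).IsIndContained G) :
    n ≤ 2 ^ ((5 * (2 * (j + 1)) + 6) * (7 * (2 * (j + 1)) + 13) ^ j * (m + 1) ^ (j + 1)) := by
  cases n with
  | zero => exact Nat.zero_le _
  | succ n =>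
    obtain ⟨H, E, t, ht⟩ := exists_elim' G hG hP hm
    rw [← ht]
    exact Elim.card_C_even rfl t

end Pool.Agent.Lib.MP_6d7b3f_co
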