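import Pool.Agent.Lib.MP_6d7b3f_co.Upper
import Pool.Agent.Lib.MP_6d7b3f_co.Lower

namespace Pool.Agent.Lib.MP_6d7b3f_co

open Filter Asymptotics

lemma one_le_f {k n : ℕ} (hk : 1 ≤ k) (hn : 1 ≤ n) : 1 ≤ f k n := by
  refine le_csSup (bddAbove_FS hk n) ?_
  rintro N G _ ⟨φ⟩
  exact indContained_of_indP (indP_single (φ ⟨0, hn⟩)) le_rfl

lemma root_pow {y : ℝ} (hy : 0 ≤ y) {j : ℕ} (hj : 1 ≤ j) : (y ^ (1 / (j : ℝ))) ^ j = y := by
  rw [one_div]
  exact Real.rpow_inv_natCast_pow hy (by omega)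

lemma root_le {y a C : ℝ} (hy : 0 ≤ y) (ha : 0 ≤ a) (hC : 1 ≤ C) {j : ℕ} (hj : 1 ≤ j)
    (h : y ≤ C * a ^ j) : y ^ (1 / (j : ℝ)) ≤ C * a := by
  refine le_of_pow_le_pow_left₀ (n := j) (by omega) (by positivity) ?_
  rw [root_pow hy hj, mul_pow]
  refine h.trans (mul_le_mul_of_nonneg_right ?_ (by positivity))
  exact le_self_pow₀ hC (by omega)

lemma one_le_root {y : ℝ} (hy : 1 ≤ y) (j : ℕ) : 1 ≤ y ^ (1 / (j : ℝ)) :=
  Real.one_le_rpow hy (by positivity)

lemma lt_pow_of_log {n a e : ℕ} (hn : 1 ≤ n) (ha : 1 ≤ a) (h : Real.log n < e * Real.log a) :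
    n < a ^ e := by
  have h1 : (0 : ℝ) < n := by exact_mod_cast hn
  have h2 : (0 : ℝ) < a := by exact_mod_cast ha
  rw [← Real.log_pow, Real.log_lt_log_iff h1 (by positivity)] at h
  exact_mod_cast h

lemma log_le_of_le_pow {n a e : ℕ} (hn : 1 ≤ n) (h : n ≤ a ^ e) : Real.log n ≤ e * Real.log a := by
  have h1 : (0 : ℝ) < n := by exact_mod_cast hn
  rw [← Real.log_pow]
  exact Real.log_le_log h1 (by exact_mod_cast h)

lemma ev_log (c : ℝ) : ∀ᶠ n : ℕ in atTop, c ≤ Real.log n :=
  (Real.tendsto_log_atTop.comp tendsto_natCast_atTop_atTop).eventually_ge_atTop c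

lemma ev_loglog (c : ℝ) : ∀ᶠ n : ℕ in atTop, c ≤ Real.log (Real.log n) :=
  (Real.tendsto_log_atTop.comp
    (Real.tendsto_log_atTop.comp tendsto_natCast_atTop_atTop)).eventually_ge_atTop c

theorem theta_even {j : ℕ} (hj : 1 ≤ j) :
    (fun n : ℕ => (f (2 * j) n : ℝ)) =Θ[atTop] (fun n : ℕ => Real.log n ^ (1 / (j : ℝ))) := by
  constructor
  · refine IsBigO.of_bound (12 ^ j * 4) ?_
    filter_upwards [ev_log 1, eventually_ge_atTop 1] with n hL hn
    set x := Real.log n ^ (1 / (j : ℝ)) with hx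
    have hx1 : 1 ≤ x := one_le_root hL j
    have hxj : x ^ j = Real.log n := root_pow (by linarith) hj
    have hm : 2 * x ≤ (⌈2 * x⌉₊ : ℝ) := Nat.le_ceil _
    have hm' : (⌈2 * x⌉₊ : ℝ) < 2 * x + 1 := Nat.ceil_lt_add_one (by linarith)
    have h1 := upper_even j ⌈2 * x⌉₊ n (lt_pow_of_log hn (by omega) (by
      have h2 : (2 * x) ^ j ≤ ((⌈2 * x⌉₊ : ℝ) + 1) ^ j :=
        pow_le_pow_left₀ (by linarith) (by linarith) j
      have h3 : (2 : ℝ) ≤ 2 ^ j := le_self_pow₀ (by norm_num) (by omega)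
      rw [mul_pow, hxj] at h2
      have h4 := Real.log_two_gt_d9
      have h5 : 2 * Real.log n ≤ ((⌈2 * x⌉₊ : ℝ) + 1) ^ j :=
        (mul_le_mul_of_nonneg_right h3 (by linarith)).trans h2
      have h6 := mul_le_mul h5 h4.le (by norm_num) (by positivity)
      push_cast
      linarith))
    have h2 : (f (2 * j) n : ℝ) ≤ 12 ^ j * ((⌈2 * x⌉₊ : ℝ) + 1) := by exact_mod_cast h1
    rw [Real.norm_of_nonneg (by positivity), Real.norm_of_nonneg (by linarith), mul_assoc]
    exact h2.trans (mul_le_mul_of_nonneg_left (by linarith) (by positivity))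
  · obtain ⟨i, rfl⟩ : ∃ i, j = i + 1 := ⟨j - 1, by omega⟩
    set C : ℕ := (5 * (2 * (i + 1)) + 6) * (7 * (2 * (i + 1)) + 13) ^ i with hC
    have hC1 : (1 : ℝ) ≤ C := by
      have : 0 < C := by positivity
      exact_mod_cast this
    refine IsBigO.of_bound (C * 2) ?_
    filter_upwards [ev_log 1, eventually_ge_atTop 1] with n hL hn
    obtain ⟨N, G, h1, h2, h3⟩ := exists_extremal (k := 2 * (i + 1)) (by omega) n
    have h4 := log_le_of_le_pow hn (lower_even G h1 h2 h3)
    have h5 : (1 : ℝ) ≤ f (2 * (i + 1)) n := by exact_mod_cast one_le_f (by omega) hn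
    set F := f (2 * (i + 1)) n
    have h6 : Real.log n ≤ C * ((F : ℝ) + 1) ^ (i + 1) := by
      have h7 := Real.log_two_lt_d9
      rw [← hC] at h4
      push_cast at h4
      have h8 : (0 : ℝ) ≤ C * ((F : ℝ) + 1) ^ (i + 1) := by positivity
      nlinarith
    have h7 := root_le (by linarith) (by positivity) hC1 hj h6
    rw [Real.norm_of_nonneg (by positivity), Real.norm_of_nonneg (by positivity), mul_assoc]
    exact h7.trans (mul_le_mul_of_nonneg_left (by linarith) (by positivity))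

theorem theta_odd {j : ℕ} (hj : 1 ≤ j) :
    (fun n : ℕ => (f (2 * j + 1) n : ℝ)) =Θ[atTop]
      (fun n : ℕ => (Real.log n / Real.log (Real.log n)) ^ (1 / (j : ℝ))) := by
  have hj' : (1 : ℝ) ≤ j := by exact_mod_cast hj
  constructor
  · refine IsBigO.of_bound (12 ^ j * (2 * j + 3)) ?_
    filter_upwards [ev_log 1, ev_loglog 1, eventually_ge_atTop 1] with n hL hLL hn
    set L := Real.log n with hLdef
    have hLle : Real.log L ≤ L := (Real.log_le_sub_one_of_pos (by linarith)).trans (by linarith)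
    have hy : 1 ≤ L / Real.log L := (one_le_div (by linarith)).2 hLle
    set x := (L / Real.log L) ^ (1 / (j : ℝ)) with hx
    have hx1 : 1 ≤ x := one_le_root hy j
    have hxj : x ^ j = L / Real.log L := root_pow (by linarith) hj
    set c : ℝ := 2 * j + 1 with hc
    have hc1 : 1 ≤ c := by linarith
    have hcx : x ≤ c * x := le_mul_of_one_le_left (by linarith) hc1
    have hm : c * x ≤ (⌈c * x⌉₊ : ℝ) := Nat.le_ceil _
    have hm' : (⌈c * x⌉₊ : ℝ) < c * x + 1 := Nat.ceil_lt_add_one (by linarith)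
    have h1 := upper_odd j ⌈c * x⌉₊ n (lt_pow_of_log hn (by omega) (by
      have h2 : (c * x) ^ j ≤ ((⌈c * x⌉₊ : ℝ) + 1) ^ j :=
        pow_le_pow_left₀ (by linarith) (by linarith) j
      have h3 : c ≤ c ^ j := le_self_pow₀ hc1 (by omega)
      rw [mul_pow, hxj] at h2
      have h4 : Real.log x ≤ Real.log ((⌈c * x⌉₊ : ℝ) + 2) :=
        Real.log_le_log (by linarith) (by linarith)
      have h5 : j * Real.log x = Real.log L - Real.log (Real.log L) := by
        rw [← Real.log_pow, hxj, Real.log_div (by linarith) (by linarith)]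
      have h6 : Real.log (Real.log L) ≤ Real.log L / 2 := by
        have h7 := Real.log_le_sub_one_of_pos (x := Real.log L / 2) (by linarith)
        rw [Real.log_div (by linarith) (by norm_num)] at h7
        have := Real.log_two_lt_d9
        linarith
      have h7 : c * (L / Real.log L) ≤ ((⌈c * x⌉₊ : ℝ) + 1) ^ j :=
        (mul_le_mul_of_nonneg_right h3 (by linarith)).trans h2
      have h8 : Real.log L / (2 * j) ≤ Real.log ((⌈c * x⌉₊ : ℝ) + 2) := by
        refine le_trans ?_ h4
        rw [div_le_iff₀ (by linarith)]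
        linarith
      have h9 := mul_le_mul h7 h8 (by positivity) (by positivity)
      have h10 : c * (L / Real.log L) * (Real.log L / (2 * j)) = L + L / (2 * j) := by
        rw [hc]; field_simp
      have h11 : 0 < L / (2 * j) := by positivity
      push_cast
      rw [← hLdef]
      linarith))
    have h2 : (f (2 * j + 1) n : ℝ) ≤ 12 ^ j * ((⌈c * x⌉₊ : ℝ) + 1) := by exact_mod_cast h1
    rw [Real.norm_of_nonneg (by positivity), Real.norm_of_nonneg (by linarith), mul_assoc]
    refine h2.trans (mul_le_mul_of_nonneg_left ?_ (by positivity))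
    have : (2 * j + 3) * x = c * x + 2 * x := by rw [hc]; ring
    linarith
  · set C : ℕ := (3 * (2 * j + 1) + 2) * (7 * (2 * j + 1) + 13) ^ j with hC
    have hC1 : (1 : ℝ) ≤ C := by
      have : 0 < C := by positivity
      exact_mod_cast this
    refine IsBigO.of_bound (C * 3) ?_
    filter_upwards [ev_log 1, ev_loglog 1, eventually_ge_atTop 1] with n hL hLL hn
    obtain ⟨N, G, h1, h2, h3⟩ := exists_extremal (k := 2 * j + 1) (by omega) n
    have h4 := log_le_of_le_pow hn (lower_odd G h1 h2 h3)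
    have h5 : (1 : ℝ) ≤ f (2 * j + 1) n := by exact_mod_cast one_le_f (by omega) hn
    set F := f (2 * j + 1) n
    set L := Real.log n with hLdef
    rw [← hC] at h4
    push_cast at h4
    have h6 : L / Real.log L ≤ C * ((F : ℝ) + 2) ^ j := by
      rw [div_le_iff₀ (by linarith)]
      have hp1 : ((F : ℝ) + 1) ^ j ≤ ((F : ℝ) + 2) ^ j :=
        pow_le_pow_left₀ (by linarith) (by linarith) j
      rcases le_total ((F : ℝ) + 2) L with h7 | h7
      · have h8 : Real.log ((F : ℝ) + 2) ≤ Real.log L := Real.log_le_log (by linarith) h7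
        have h9 : 0 ≤ Real.log ((F : ℝ) + 2) := Real.log_nonneg (by linarith)
        exact h4.trans (mul_le_mul (mul_le_mul_of_nonneg_left hp1 (by linarith)) h8 h9
          (by positivity))
      · have h8 : (F : ℝ) + 2 ≤ ((F : ℝ) + 2) ^ j := le_self_pow₀ (by linarith) (by omega)
        have h9 : ((F : ℝ) + 2) ^ j ≤ C * ((F : ℝ) + 2) ^ j :=
          le_mul_of_one_le_left (by positivity) hC1
        have h10 : C * ((F : ℝ) + 2) ^ j ≤ C * ((F : ℝ) + 2) ^ j * Real.log L :=
          le_mul_of_one_le_right (by positivity) hLL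
        linarith
    have hy : 0 ≤ L / Real.log L := by positivity
    have h7 := root_le hy (by positivity) hC1 hj h6
    rw [Real.norm_of_nonneg (by positivity), Real.norm_of_nonneg (by positivity), mul_assoc]
    exact h7.trans (mul_le_mul_of_nonneg_left (by linarith) (by positivity))

end Pool.Agent.Lib.MP_6d7b3f_co
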