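import Pool.Agent.Lib.MP_6d7b3f_co.Count

namespace Pool.Agent.Lib.MP_6d7b3f_co

open Finset
open scoped Classical

variable {V : Type*}

lemma le_pow_self' {R : ℕ} (hR : 2 ≤ R) (x : ℕ) : x ≤ R ^ x :=
  (Nat.lt_pow_self (by omega)).le

namespace Elim

variable {G : SimpleGraph V} {k m : ℕ} {E : Elim G k m}

lemma reg_step' {t : V} {Z : Finset V} {R : ℕ} (hZ : Z ⊆ E.S t) (hm : m + 2 ≤ R)
    (hR : ∀ (s : V) (Z' : Finset V), Z' ⊆ E.S s → Z'.card = Z.card + 2 → (E.Reg s Z').card ≤ R) :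
    (E.Reg t Z).card ≤ R ^ ((7 * k + 13) * (m + 1)) := by
  have h2 : 2 ≤ R := by omega
  have h1 : 1 ≤ R := by omega
  have a1 : 2 * k + 2 ≤ R ^ (2 * k + 2) := le_pow_self' h2 _
  have a2 : (m + 1) ^ k ≤ R ^ k := Nat.pow_le_pow_left (by omega) k
  have a3 : R + (m + 1) ^ k ≤ R ^ (k + 2) := by
    have b1 : R ≤ R ^ (k + 1) := Nat.le_self_pow (by omega) R
    have b2 : R ^ k ≤ R ^ (k + 1) := Nat.pow_le_pow_right h1 (by omega)
    have b3 : R ^ (k + 1) * 2 ≤ R ^ (k + 1) * R := Nat.mul_le_mul_left _ h2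
    rw [pow_succ R (k + 1)]
    omega
  have a4 : 2 * ((2 * k + 2) * m) * ((2 * k + 2) * (R + (m + 1) ^ k)) ≤ R ^ (5 * k + 8) := by
    calc 2 * ((2 * k + 2) * m) * ((2 * k + 2) * (R + (m + 1) ^ k))
        ≤ R * (R ^ (2 * k + 2) * R) * (R ^ (2 * k + 2) * R ^ (k + 2)) := by
          gcongr
          omega
      _ = R ^ (5 * k + 8) := by ring
  have a5 : R + 2 * ((2 * k + 2) * m) * ((2 * k + 2) * (R + (m + 1) ^ k)) ≤ R ^ (5 * k + 9) := by
    have b1 : R ≤ R ^ (5 * k + 8) := Nat.le_self_pow (by omega) R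
    have b3 : R ^ (5 * k + 8) * 2 ≤ R ^ (5 * k + 8) * R := Nat.mul_le_mul_left _ h2
    rw [pow_succ R (5 * k + 8)]
    omega
  have a6 : (2 * k + 2) * (m + 1) ^ k ≤ R ^ (5 * k + 9) := by
    calc (2 * k + 2) * (m + 1) ^ k ≤ R ^ (2 * k + 2) * R ^ k := Nat.mul_le_mul a1 a2
      _ = R ^ (3 * k + 2) := by ring
      _ ≤ R ^ (5 * k + 9) := Nat.pow_le_pow_right h1 (by omega)
  refine (reg_step hZ hR a6 a5).trans ?_
  rw [pow_mul]
  refine Nat.pow_le_pow_left ?_ _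
  have b1 : 1 ≤ R ^ (5 * k + 9) := Nat.one_le_pow _ _ h1
  have b2 : 2 * k + 4 ≤ R ^ (2 * k + 4) := le_pow_self' h2 _
  calc 1 + R ^ (5 * k + 9) * (2 * k + 3) ≤ R ^ (5 * k + 9) * (2 * k + 4) := by nlinarith
    _ ≤ R ^ (5 * k + 9) * R ^ (2 * k + 4) := Nat.mul_le_mul_left _ b2
    _ = R ^ (7 * k + 13) := by ring

lemma reg_iter {j0 R : ℕ} (hm : m + 2 ≤ R)
    (h0 : ∀ (t : V) (Z : Finset V), Z ⊆ E.S t → k ≤ Z.card + j0 → (E.Reg t Z).card ≤ R) (i : ℕ) :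
    ∀ (t : V) (Z : Finset V), Z ⊆ E.S t → k ≤ Z.card + (j0 + 2 * i) →
      (E.Reg t Z).card ≤ R ^ (((7 * k + 13) * (m + 1)) ^ i) := by
  induction i with
  | zero => intro t Z h1 h2; simpa using h0 t Z h1 h2
  | succ i ih =>
    intro t Z h1 h2
    have hpos : 0 < ((7 * k + 13) * (m + 1)) ^ i := by positivity
    have h3 := reg_step' (R := R ^ (((7 * k + 13) * (m + 1)) ^ i)) h1
      (hm.trans (Nat.le_self_pow hpos.ne' R)) (fun s Z' hs hc => ih s Z' hs (by omega))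
    rwa [← pow_mul, ← pow_succ] at h3

lemma card_C_odd {j : ℕ} (hk : k = 2 * j + 1) (t : V) :
    (E.C t).card ≤ (m + 2) ^ ((3 * k + 2) * (7 * k + 13) ^ j * (m + 1) ^ j) := by
  have h := reg_iter (E := E) (j0 := 1) (R := (m + 2) ^ (3 * k + 2))
    (Nat.le_self_pow (by omega) _) (by
      intro t Z h1 h2
      refine (reg_one h1 h2).trans ?_
      calc (2 * k + 2) * (m + 1) ^ k ≤ (m + 2) ^ (2 * k + 2) * (m + 2) ^ k :=
            Nat.mul_le_mul (le_pow_self' (by omega) _) (Nat.pow_le_pow_left (by omega) k)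
        _ = (m + 2) ^ (3 * k + 2) := by ring) j t ∅ (empty_subset _) (by simp; omega)
  rw [← pow_mul, mul_pow, ← mul_assoc] at h
  simpa [Reg] using h

lemma card_C_even {j : ℕ} (hk : k = 2 * (j + 1)) (t : V) :
    (E.C t).card ≤ 2 ^ ((5 * k + 6) * (7 * k + 13) ^ j * (m + 1) ^ (j + 1)) := by
  have h := reg_iter (E := E) (j0 := 2) (R := 2 ^ ((5 * k + 6) * (m + 1))) (by
      have h1 : m + 1 < 2 ^ (m + 1) := Nat.lt_pow_self (by omega)
      have h2 : 2 ^ (m + 1) ≤ 2 ^ ((5 * k + 6) * (m + 1)) :=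
        Nat.pow_le_pow_right (by omega) (Nat.le_mul_of_pos_left _ (by omega))
      omega) (by
      intro t Z h1 h2
      refine (reg_two h1 h2).trans ?_
      have b1 : 1 ≤ (2 * k + 3) ^ (2 * m) := Nat.one_le_pow _ _ (by omega)
      have b2 : 1 ≤ (m + 1) ^ k := Nat.one_le_pow _ _ (by omega)
      have b3 : 2 * k + 3 ≤ 2 ^ (2 * k + 3) := le_pow_self' le_rfl _
      have b4 : m + 1 ≤ 2 ^ (m + 1) := le_pow_self' le_rfl _
      calc (2 * k + 3) ^ (2 * m) +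
            (2 * k + 2) * (m + 1) ^ k * (1 + (2 * k + 2) * (2 * k + 3) ^ (2 * m))
          ≤ (2 * k + 3) ^ 2 * (2 * k + 3) ^ (2 * m) * (m + 1) ^ k := by
            set A := (2 * k + 3) ^ (2 * m)
            set X := (m + 1) ^ k
            have c1 : A ≤ A * X := Nat.le_mul_of_pos_right _ b2
            have c2 : X ≤ A * X := Nat.le_mul_of_pos_left _ b1
            have c3 := Nat.mul_le_mul_left (2 * k + 2) c2
            nlinarith
        _ = (2 * k + 3) ^ (2 * (m + 1)) * (m + 1) ^ k := by ring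
        _ ≤ (2 ^ (2 * k + 3)) ^ (2 * (m + 1)) * (2 ^ (m + 1)) ^ k := by gcongr
        _ = 2 ^ ((5 * k + 6) * (m + 1)) := by rw [← pow_mul, ← pow_mul, ← pow_add]; congr 1; ring)
      j t ∅ (empty_subset _) (by simp; omega)
  rw [← pow_mul, mul_pow] at h
  have e : (5 * k + 6) * (m + 1) * ((7 * k + 13) ^ j * (m + 1) ^ j) =
      (5 * k + 6) * (7 * k + 13) ^ j * (m + 1) ^ (j + 1) := by ring
  rw [e] at h
  simpa [Reg] using h

end Elim

end Pool.Agent.Lib.MP_6d7b3f_co
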