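import Pool.Agent.Lib.MP_6d7b3f_co.Construct

namespace Pool.Agent.Lib.MP_6d7b3f_co

open Finset
open scoped Classical

/-- glue a copy of `G` on each consecutive pair of vertices of `B` -/
def comp (B : SimpleGraph ℕ) (M : ℕ) (G : SimpleGraph ℕ) (L : ℕ) : SimpleGraph ℕ where
  Adj x y := x ≠ y ∧ ((∃ a b, x = a * L ∧ y = b * L ∧ B.Adj a b) ∨
    ∃ i < M, ∃ r r', x = i * L + r ∧ y = i * L + r' ∧ G.Adj r r')
  symm := ⟨fun _ _ h => ⟨h.1.symm, by
    rcases h.2 with ⟨a, b, h1, h2, h3⟩ | ⟨i, hi, r, r', h1, h2, h3⟩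
    · exact Or.inl ⟨b, a, h2, h1, h3.symm⟩
    · exact Or.inr ⟨i, hi, r', r, h2, h1, h3.symm⟩⟩⟩
  loopless := ⟨fun _ h => h.1 rfl⟩

/-- the rank function on the glued graph -/
def compRank (L K : ℕ) (ρB ρG : ℕ → ℕ) (x : ℕ) : ℕ :=
  if x % L = 0 then ρB (x / L) else K + ρG (x % L)

lemma split_eq {L i j r s : ℕ} (hL : 1 ≤ L) (h : i * L + r = j * L + s) (hr : r ≤ L) (hs : s ≤ L) :
    (i = j ∧ r = s) ∨ (j = i + 1 ∧ r = L ∧ s = 0) ∨ (i = j + 1 ∧ r = 0 ∧ s = L) := by
  rcases Nat.lt_trichotomy i j with h1 | h1 | h1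
  · obtain ⟨c, rfl⟩ := Nat.exists_eq_add_of_lt h1
    have h2 : r = c * L + L + s := by nlinarith
    have h3 : c * L = 0 := by omega
    have h4 : c = 0 := by
      rcases Nat.mul_eq_zero.1 h3 with h | h <;> omega
    omega
  · left; subst h1; omega
  · obtain ⟨c, rfl⟩ := Nat.exists_eq_add_of_lt h1
    have h2 : s = c * L + L + r := by nlinarith
    have h3 : c * L = 0 := by omega
    have h4 : c = 0 := by
      rcases Nat.mul_eq_zero.1 h3 with h | h <;> omega
    omega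

lemma decomp {L : ℕ} (hL : 1 ≤ L) (x : ℕ) :
    (∃ a, x = a * L) ∨ ∃ i r, 0 < r ∧ r < L ∧ x = i * L + r := by
  have h := Nat.div_add_mod x L
  by_cases h0 : x % L = 0
  · exact Or.inl ⟨x / L, by rw [mul_comm]; omega⟩
  · exact Or.inr ⟨x / L, x % L, by omega, Nat.mod_lt _ hL, by rw [mul_comm]; omega⟩

lemma compRank_base {L K : ℕ} {ρB ρG : ℕ → ℕ} (hL : 1 ≤ L) (a : ℕ) :
    compRank L K ρB ρG (a * L) = ρB a := by
  simp [compRank, Nat.mul_div_cancel _ hL]

lemma compRank_int {L K : ℕ} {ρB ρG : ℕ → ℕ} {i r : ℕ} (h0 : 0 < r) (h1 : r < L) :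
    compRank L K ρB ρG (i * L + r) = K + ρG r := by
  have : (i * L + r) % L = r := by
    rw [Nat.mul_add_mod_of_lt h1]
  simp only [compRank, this]
  rw [if_neg (by omega)]

section
variable {B G : SimpleGraph ℕ} {M L k lB lG eB eG : ℕ} {ρB ρG : ℕ → ℕ}

lemma comp_copy (hG : Gad G L k lG eG ρG) {i r r' : ℕ} (hi : i < M) (hr : r ≤ L) (hr' : r' ≤ L) :
    (comp B M G L).Adj (i * L + r) (i * L + r') ↔ G.Adj r r' := by
  constructor
  · rintro ⟨hne, ⟨a, b, h1, h2, _⟩ | ⟨j, _, s, s', h1, h2, h3⟩⟩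
    · have e1 := split_eq hG.pos (j := a) (s := 0) h1 hr (Nat.zero_le _)
      have e2 := split_eq hG.pos (j := b) (s := 0) h2 hr' (Nat.zero_le _)
      have hp := hG.pos
      have : (r = 0 ∧ r' = L) ∨ (r = L ∧ r' = 0) := by omega
      rcases this with ⟨e3, e4⟩ | ⟨e3, e4⟩
      · rw [e3, e4]; exact hG.adj
      · rw [e3, e4]; exact hG.adj.symm
    · have e1 := split_eq hG.pos h1 hr (hG.range _ _ h3)
      have e2 := split_eq hG.pos h2 hr' (hG.range _ _ h3.symm)
      have e3 : r = s ∧ r' = s' := by omega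
      rw [e3.1, e3.2]; exact h3
  · intro h
    exact ⟨by have := h.ne; omega, Or.inr ⟨i, hi, r, r', rfl, rfl, h⟩⟩

lemma comp_base (hB : Gad B M k lB eB ρB) (hG : Gad G L k lG eG ρG) {a b : ℕ} :
    (comp B M G L).Adj (a * L) (b * L) ↔ B.Adj a b := by
  constructor
  · rintro ⟨hne, ⟨a', b', h1, h2, h3⟩ | ⟨j, hj, s, s', h1, h2, h3⟩⟩
    · rw [Nat.eq_of_mul_eq_mul_right hG.pos h1, Nat.eq_of_mul_eq_mul_right hG.pos h2]
      exact h3
    · have e1 := split_eq hG.pos (i := a) (r := 0) h1 (Nat.zero_le _) (hG.range _ _ h3)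
      have e2 := split_eq hG.pos (i := b) (r := 0) h2 (Nat.zero_le _) (hG.range _ _ h3.symm)
      have hp := hG.pos
      have hne' := h3.ne
      have : (a = j ∧ b = j + 1) ∨ (a = j + 1 ∧ b = j) := by omega
      rcases this with ⟨e3, e4⟩ | ⟨e3, e4⟩
      · rw [e3, e4]; exact hB.cons j hj
      · rw [e3, e4]; exact (hB.cons j hj).symm
  · intro h
    exact ⟨fun h' => h.ne (Nat.eq_of_mul_eq_mul_right hG.pos h'), Or.inl ⟨a, b, rfl, rfl, h⟩⟩

lemma comp_int (hG : Gad G L k lG eG ρG) {i r y : ℕ} (h0 : 0 < r) (h1 : r < L)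
    (h : (comp B M G L).Adj (i * L + r) y) : i < M ∧ ∃ r' ≤ L, y = i * L + r' ∧ G.Adj r r' := by
  obtain ⟨hne, ⟨a, b, h2, _, _⟩ | ⟨j, hj, s, s', h2, h3, h4⟩⟩ := h
  · have e1 := split_eq hG.pos (j := a) (s := 0) h2 h1.le (Nat.zero_le _)
    omega
  · have e1 := split_eq hG.pos h2 h1.le (hG.range _ _ h4)
    have e2 : i = j ∧ r = s := by omega
    rw [e2.1, e2.2]
    exact ⟨hj, s', hG.range _ _ h4.symm, h3, h4⟩

lemma comp_stay (hG : Gad G L k lG eG ρG) {p : ℕ → ℕ} {n i r : ℕ}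
    (hp : IndP (comp B M G L) p n) (hn : 1 < n) (c : ℕ) (hc : p 0 = c * L) (h0 : 0 < r)
    (h1 : r < L) (hr : p 1 = i * L + r) : n ≤ eG := by
  have hadj := (hp.adj (i := 0) hn).symm
  rw [hr] at hadj
  obtain ⟨hi, r0, hr0, hp0, _⟩ := comp_int hG h0 h1 hadj
  have hr0' : r0 = 0 ∨ r0 = L := by
    have := split_eq hG.pos (i := c) (r := 0) (hc.symm.trans hp0) (Nat.zero_le _) hr0
    omega
  have hall : ∀ b, b + 1 < n → ∃ s, 0 < s ∧ s < L ∧ p (b + 1) = i * L + s := by
    intro b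
    induction b with
    | zero => intro _; exact ⟨r, h0, h1, hr⟩
    | succ b ih =>
      intro hb
      obtain ⟨s, hs0, hs1, hs⟩ := ih (by omega)
      have h2 := hp.adj hb
      rw [hs] at h2
      obtain ⟨_, s', hs', h3, _⟩ := comp_int hG hs0 hs1 h2
      by_cases h4 : s' = 0 ∨ s' = L
      · exfalso
        by_cases h5 : s' = r0
        · have := hp.1 0 (by omega) (b + 1 + 1) hb (by rw [hp0, h3, h5])
          omega
        · have h6 : G.Adj r0 s' := by
            rcases hr0' with e3 | e3 <;> rcases h4 with e4 | e4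
            · exact absurd (e4.trans e3.symm) h5
            · rw [e3, e4]; exact hG.adj
            · rw [e3, e4]; exact hG.adj.symm
            · exact absurd (e4.trans e3.symm) h5
          have h7 := (comp_copy (B := B) hG hi hr0 hs').2 h6
          rw [← hp0, ← h3] at h7
          have := (hp.2 0 (by omega) (b + 1 + 1) hb).1 h7
          omega
      · exact ⟨s', by omega, by omega, h3⟩
  have hall' : ∀ b < n, ∃ s ≤ L, p b = i * L + s := by
    intro b hb
    cases b with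
    | zero => exact ⟨r0, hr0, hp0⟩
    | succ b =>
      obtain ⟨s, _, h2, h3⟩ := hall b hb
      exact ⟨s, h2.le, h3⟩
  refine hG.elen (fun b => p b - i * L) n ⟨?_, ?_⟩
    (by show p 0 - i * L = 0 ∨ p 0 - i * L = L; omega)
  · intro a ha b hb hab
    obtain ⟨s, _, h2⟩ := hall' a ha
    obtain ⟨s', _, h3⟩ := hall' b hb
    simp only at hab
    exact hp.1 a ha b hb (by omega)
  · intro a ha b hb
    obtain ⟨s, hs, h2⟩ := hall' a ha
    obtain ⟨s', hs', h3⟩ := hall' b hb
    rw [← hp.2 a ha b hb, h2, h3, comp_copy hG hi hs hs']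
    simp only [h2, h3, Nat.add_sub_cancel_left]

lemma comp_from_base (hB : Gad B M k lB eB ρB) (hG : Gad G L k lG eG ρG) {p : ℕ → ℕ} {n c β : ℕ}
    (hp : IndP (comp B M G L) p n) (hc : p 0 = c * L)
    (hβ : ∀ q n', IndP B q n' → q 0 = c → n' ≤ β) : n + 1 ≤ β + eG := by
  have he : 1 ≤ eG := hG.elen (fun _ => 0) 1 (indP_single 0) (Or.inl rfl)
  have hbase : ∀ n' ≤ n, (∀ b < n', ∃ a, p b = a * L) → n' ≤ β := by
    intro n' hn' h
    refine hβ (fun b => p b / L) n' ⟨?_, ?_⟩ (by simp only [hc]; exact Nat.mul_div_cancel _ hG.pos)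
    · intro a ha b hb hab
      obtain ⟨s, h2⟩ := h a ha
      obtain ⟨s', h3⟩ := h b hb
      simp only [h2, h3, Nat.mul_div_cancel _ hG.pos] at hab
      exact hp.1 a (by omega) b (by omega) (by rw [h2, h3, hab])
    · intro a ha b hb
      obtain ⟨s, h2⟩ := h a ha
      obtain ⟨s', h3⟩ := h b hb
      rw [← hp.2 a (by omega) b (by omega), h2, h3, comp_base hB hG]
      simp only [h2, h3, Nat.mul_div_cancel _ hG.pos]
  by_cases hall : ∀ b < n, ∃ a, p b = a * L
  · have := hbase n le_rfl hall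
    omega
  · push Not at hall
    have hex : ∃ b, b < n ∧ ∀ a, p b ≠ a * L := hall
    obtain ⟨h1, h2⟩ := Nat.find_spec hex
    have hmin : ∀ b < Nat.find hex, ∃ a, p b = a * L := by
      intro b hb
      have := Nat.find_min hex hb
      push Not at this
      exact this (by omega)
    have h3 := hbase _ h1.le hmin
    obtain ⟨a, ha⟩ : ∃ a, Nat.find hex = a + 1 := by
      refine Nat.exists_eq_succ_of_ne_zero (fun h => ?_)
      rw [h] at h2
      exact h2 c hc
    rw [ha] at h1 h2 h3 hmin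
    obtain ⟨c', hc'⟩ := hmin a (Nat.lt_succ_self a)
    rcases decomp hG.pos (p (a + 1)) with ⟨a', ha'⟩ | ⟨i, r, h4, h5, h6⟩
    · exact absurd ha' (h2 a')
    · have := comp_stay hG (hp.shift a) (by omega) c' hc' h4 h5 h6
      omega

lemma gad_comp (hB : Gad B M k lB eB ρB) (hG : Gad G L k lG eG ρG) {l e : ℕ} (hl1 : lG ≤ l)
    (hl2 : 2 * lB + 2 * eG ≤ l) (he : eB + eG ≤ e + 1) :
    ∃ ρ, Gad (comp B M G L) (M * L) k l e ρ := by
  obtain ⟨K, hK⟩ : ∃ K, ∀ a ≤ M, ρB a < K :=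
    ⟨(range (M + 1)).sup ρB + 1, fun a ha =>
      Nat.lt_succ_of_le (le_sup (f := ρB) (mem_range.2 (by omega)))⟩
  have hL := hG.pos
  have hcmp : ∀ i < M, ∀ r ≤ L, ∀ r', 0 < r' → r' < L →
      (compRank L K ρB ρG (i * L + r) < compRank L K ρB ρG (i * L + r') ↔ ρG r < ρG r') ∧
      (compRank L K ρB ρG (i * L + r) = compRank L K ρB ρG (i * L + r') → ρG r = ρG r') := by
    intro i hi r hr r' h0 h1
    rw [compRank_int h0 h1]
    have hlow := hG.low r' h0 h1
    by_cases h2 : r = 0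
    · rw [h2, add_zero, compRank_base hL]
      have := hK i hi.le
      omega
    by_cases h3 : r = L
    · rw [h3, ← Nat.succ_mul, compRank_base hL]
      have := hK (i + 1) hi
      have e : ρB i.succ = ρB (i + 1) := rfl
      omega
    rw [compRank_int (by omega) (by omega)]
    omega
  have hbase_nbr : ∀ x b, (comp B M G L).Adj x (b * L) →
      compRank L K ρB ρG x < compRank L K ρB ρG (b * L) →
      ∃ a, x = a * L ∧ B.Adj a b ∧ ρB a < ρB b := by
    intro x b h1 h2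
    rcases decomp hL x with ⟨a, rfl⟩ | ⟨i, r, h3, h4, rfl⟩
    · rw [compRank_base hL, compRank_base hL] at h2
      exact ⟨a, rfl, (comp_base hB hG).1 h1, h2⟩
    · exfalso
      obtain ⟨hi, r', hr', h5, _⟩ := comp_int hG h3 h4 h1
      rw [compRank_int h3 h4, compRank_base hL] at h2
      have := split_eq hL (i := b) (r := 0) h5 (Nat.zero_le _) hr'
      have := hK b (by omega)
      omega
  have hint_nbr : ∀ x i r', 0 < r' → r' < L → (comp B M G L).Adj x (i * L + r') →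
      compRank L K ρB ρG x < compRank L K ρB ρG (i * L + r') →
      i < M ∧ ∃ r ≤ L, x = i * L + r ∧ G.Adj r r' ∧ ρG r < ρG r' := by
    intro x i r' h0 h1 h2 h3
    obtain ⟨hi, r, hr, rfl, h4⟩ := comp_int hG h0 h1 h2.symm
    exact ⟨hi, r, hr, rfl, h4.symm, (hcmp i hi r hr r' h0 h1).1.1 h3⟩
  refine ⟨compRank L K ρB ρG, ⟨⟨?_, ?_, ?_, ?_, ?_, ?_⟩, ?_, ?_, ?_, ?_⟩⟩
  · rintro x y ⟨_, ⟨a, b, h1, _, h3⟩ | ⟨i, hi, r, r', h1, _, h3⟩⟩
    · rw [h1]; exact Nat.mul_le_mul_right L (hB.range _ _ h3)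
    · have h4 := hG.range _ _ h3
      have h5 := Nat.mul_le_mul_right L (Nat.succ_le_of_lt hi)
      rw [Nat.succ_mul] at h5
      omega
  · intro x hx
    have h := Nat.div_add_mod x L
    have h1 : x % L < L := Nat.mod_lt _ hL
    have h2 : x / L < M := (Nat.div_lt_iff_lt_mul hL).2 hx
    have h3 := (comp_copy (B := B) hG h2 h1.le h1).2 (hG.cons _ h1)
    have e1 : x / L * L + x % L = x := by rw [mul_comm]; exact h
    have e2 : x / L * L + (x % L).succ = x + 1 := by rw [mul_comm]; omega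
    rwa [e1, e2] at h3
  · intro x y h
    rcases decomp hL y with ⟨b, rfl⟩ | ⟨i, r, h3, h4, rfl⟩
    · rcases decomp hL x with ⟨a, rfl⟩ | ⟨i, r, h3, h4, rfl⟩
      · rw [compRank_base hL, compRank_base hL]
        exact hB.ne _ _ ((comp_base hB hG).1 h)
      · obtain ⟨hi, r', hr', h5, h6⟩ := comp_int hG h3 h4 h
        rw [h5]
        exact fun h' => hG.ne _ _ h6 ((hcmp i hi r' hr' r h3 h4).2 h'.symm).symm
    · obtain ⟨hi, r', hr', rfl, h6⟩ := comp_int hG h3 h4 h.symm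
      exact fun h' => hG.ne _ _ h6 ((hcmp i hi r' hr' r h3 h4).2 h').symm
  · intro x x' y h1 h2 h3 h4 h5
    rcases decomp hL y with ⟨b, rfl⟩ | ⟨i, r, h6, h7, rfl⟩
    · obtain ⟨a, rfl, e1, e2⟩ := hbase_nbr x b h1 h3
      obtain ⟨a', rfl, e3, e4⟩ := hbase_nbr x' b h2 h4
      exact (comp_base hB hG).2 (hB.clique _ _ _ e1 e3 e2 e4 (fun h => h5 (by rw [h])))
    · obtain ⟨hi, s, hs, rfl, e1, e2⟩ := hint_nbr x i r h6 h7 h1 h3
      obtain ⟨_, s', hs', rfl, e3, e4⟩ := hint_nbr x' i r h6 h7 h2 h4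
      exact (comp_copy hG hi hs hs').2 (hG.clique _ _ _ e1 e3 e2 e4 (fun h => h5 (by rw [h])))
  · intro y s hs
    rcases decomp hL y with ⟨b, rfl⟩ | ⟨i, r, h6, h7, rfl⟩
    · rw [← card_image_of_injOn (f := fun x => x / L)]
      · refine hB.card b _ ?_
        intro x hx
        obtain ⟨x', hx', rfl⟩ := mem_image.1 hx
        obtain ⟨a, rfl, e1, e2⟩ := hbase_nbr x' b (hs x' hx').1 (hs x' hx').2
        rw [Nat.mul_div_cancel _ hL]
        exact ⟨e1, e2⟩
      · intro x hx x' hx' h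
        obtain ⟨a, rfl, _⟩ := hbase_nbr x b (hs x hx).1 (hs x hx).2
        obtain ⟨a', rfl, _⟩ := hbase_nbr x' b (hs x' hx').1 (hs x' hx').2
        simp only [Nat.mul_div_cancel _ hL] at h
        rw [h]
    · rw [← card_image_of_injOn (f := fun x => x - i * L)]
      · refine hG.card r _ ?_
        intro x hx
        obtain ⟨x', hx', rfl⟩ := mem_image.1 hx
        obtain ⟨_, a, _, rfl, e1, e2⟩ := hint_nbr x' i r h6 h7 (hs x' hx').1 (hs x' hx').2
        rw [Nat.add_sub_cancel_left]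
        exact ⟨e1, e2⟩
      · intro x hx x' hx' h
        obtain ⟨_, a, _, rfl, _⟩ := hint_nbr x i r h6 h7 (hs x hx).1 (hs x hx).2
        obtain ⟨_, a', _, rfl, _⟩ := hint_nbr x' i r h6 h7 (hs x' hx').1 (hs x' hx').2
        simp only [Nat.add_sub_cancel_left] at h
        rw [h]
  · intro p n hp
    by_cases hb : ∃ a < n, ∃ c, p a = c * L
    · obtain ⟨a, ha, c, hc⟩ := hb
      have h1 := comp_from_base hB hG (β := lB) (c := c) (hp.pre (n' := a + 1) ha).rev hc
        (fun q n' h _ => hB.len q n' h)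
      have h2 := comp_from_base hB hG (β := lB) (c := c) (hp.shift a) hc
        (fun q n' h _ => hB.len q n' h)
      omega
    · push Not at hb
      refine le_trans ?_ hl1
      rcases Nat.lt_or_ge n 2 with hn | hn
      · have := hG.len (fun _ => 0) 1 (indP_single 0)
        omega
      rcases decomp hL (p 0) with ⟨a', ha'⟩ | ⟨i, r, h4, h5, h6⟩
      · exact absurd ha' (hb 0 (by omega) a')
      have hi : i < M := by
        have := hp.adj (i := 0) hn
        rw [h6] at this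
        exact (comp_int hG h4 h5 this).1
      have hall : ∀ b < n, ∃ s, 0 < s ∧ s < L ∧ p b = i * L + s := by
        intro b
        induction b with
        | zero => intro _; exact ⟨r, h4, h5, h6⟩
        | succ b ih =>
          intro hb'
          obtain ⟨s, hs0, hs1, hs⟩ := ih (by omega)
          have h2 := hp.adj hb'
          rw [hs] at h2
          obtain ⟨_, s', hs', h3, _⟩ := comp_int hG hs0 hs1 h2
          have e1 := hb (b + 1) hb' i
          have e2 := hb (b + 1) hb' (i + 1)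
          rw [Nat.succ_mul] at e2
          exact ⟨s', by omega, by omega, h3⟩
      refine hG.len (fun b => p b - i * L) n ⟨?_, ?_⟩
      · intro a ha b hb hab
        obtain ⟨s, _, _, h2⟩ := hall a ha
        obtain ⟨s', _, _, h3⟩ := hall b hb
        simp only at hab
        exact hp.1 a ha b hb (by omega)
      · intro a ha b hb
        obtain ⟨s, _, hs, h2⟩ := hall a ha
        obtain ⟨s', _, hs', h3⟩ := hall b hb
        rw [← hp.2 a ha b hb, h2, h3, comp_copy hG hi hs.le hs'.le]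
        simp only [h2, h3, Nat.add_sub_cancel_left]
  · exact Nat.mul_pos hB.pos hL
  · have := (comp_base hB hG).2 hB.adj
    rwa [zero_mul] at this
  · intro x h0 h1
    have e0 : compRank L K ρB ρG 0 = ρB 0 := by
      have := compRank_base (K := K) (ρB := ρB) (ρG := ρG) hL 0
      rwa [zero_mul] at this
    rw [e0, compRank_base hL]
    rcases decomp hL x with ⟨a, rfl⟩ | ⟨i, r, h3, h4, rfl⟩
    · rw [compRank_base hL]
      exact hB.low a (Nat.pos_of_mul_pos_right h0) (Nat.lt_of_mul_lt_mul_right h1)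
    · rw [compRank_int h3 h4]
      have := hK 0 (Nat.zero_le _)
      have := hK M le_rfl
      omega
  · intro p n hp h0
    rcases h0 with h0 | h0
    · have := comp_from_base hB hG (β := eB) (c := 0) hp (by rw [h0, zero_mul])
        (fun q n' h h' => hB.elen q n' h (Or.inl h'))
      omega
    · have := comp_from_base hB hG (β := eB) (c := M) hp h0
        (fun q n' h h' => hB.elen q n' h (Or.inr h'))
      omega

end

lemma Pre.mono {G : SimpleGraph ℕ} {N k l l' : ℕ} {ρ : ℕ → ℕ} (h : Pre G N k l ρ) (hl : l ≤ l') :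
    Pre G N k l' ρ :=
  ⟨h.range, h.cons, h.ne, h.clique, h.card, fun p n hp => (h.len p n hp).trans hl⟩

lemma step_gad {H : SimpleGraph ℕ} {N k l : ℕ} {ρ : ℕ → ℕ} (h : Pre H N k l ρ) (d : ℕ) :
    ∃ G ρ', Gad G ((N + 2) ^ (d + 1)) (k + 2) (2 * l + 2 * d + 10) (d + 2) ρ' := by
  have hB := gad_cone h
  induction d with
  | zero =>
    refine ⟨cone H N, coneRank N ρ, ?_⟩
    rw [zero_add, pow_one]
    exact ⟨hB.toPre.mono (by omega), hB.pos, hB.adj, hB.low, hB.elen⟩
  | succ d ih =>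
    obtain ⟨G, ρ', hG⟩ := ih
    obtain ⟨ρ'', h'⟩ := gad_comp hB hG (l := 2 * l + 2 * (d + 1) + 10) (e := d + 1 + 2)
      (by omega) (by omega) (by omega)
    rw [← pow_succ'] at h'
    exact ⟨_, ρ'', h'⟩

lemma iter_pre {H : SimpleGraph ℕ} {N k m a : ℕ} {ρ : ℕ → ℕ} (h : Pre H N k (m + 1) ρ)
    (ha : a ≤ N + 2) (i : ℕ) :
    ∃ G N' ρ', Pre G N' (k + 2 * i) (12 ^ i * (m + 1)) ρ' ∧ a ^ ((m + 1) ^ i) ≤ N' + 2 := by
  induction i with
  | zero => exact ⟨H, N, ρ, by simpa using h, by simpa using ha⟩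
  | succ i ih =>
    obtain ⟨G, N', ρ', h1, h2⟩ := ih
    obtain ⟨G', ρ'', h3⟩ := step_gad h1 m
    refine ⟨G', _, ρ'', h3.toPre.mono ?_, ?_⟩
    · have : 1 ≤ 12 ^ i := Nat.one_le_pow _ _ (by omega)
      rw [pow_succ]
      nlinarith
    · rw [pow_succ, pow_mul]
      exact (Nat.pow_le_pow_left h2 _).trans (Nat.le_add_right _ _)

end Pool.Agent.Lib.MP_6d7b3f_co
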