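import Pool.Agent.Lib.MP_6d7b3f_co.Paths

namespace Pool.Agent.Lib.MP_6d7b3f_co

open Finset
open scoped Classical

section
variable {V : Type*} {G : SimpleGraph V}

lemma IndP.pre {p : ℕ → V} {n n' : ℕ} (h : IndP G p n) (hn : n' ≤ n) : IndP G p n' :=
  ⟨fun i hi j hj => h.1 i (by omega) j (by omega), fun i hi j hj => h.2 i (by omega) j (by omega)⟩

lemma IndP.shift {p : ℕ → V} {n : ℕ} (h : IndP G p n) (a : ℕ) :
    IndP G (fun i => p (a + i)) (n - a) := by
  constructor
  · intro i hi j hj hij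
    have := h.1 (a + i) (by omega) (a + j) (by omega) hij
    omega
  · intro i hi j hj
    rw [h.2 (a + i) (by omega) (a + j) (by omega)]
    omega

lemma IndP.rev {p : ℕ → V} {a : ℕ} (h : IndP G p (a + 1)) :
    IndP G (fun i => p (a - i)) (a + 1) := by
  constructor
  · intro i hi j hj hij
    have := h.1 (a - i) (by omega) (a - j) (by omega) hij
    omega
  · intro i hi j hj
    rw [h.2 (a - i) (by omega) (a - j) (by omega)]
    omega

lemma IndP.adj {p : ℕ → V} {n i : ℕ} (h : IndP G p n) (hi : i + 1 < n) : G.Adj (p i) (p (i + 1)) :=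
  (h.2 i (by omega) (i + 1) hi).2 (Or.inl rfl)

lemma IndP.exists_adj {p : ℕ → V} {n i : ℕ} (h : IndP G p n) (hn : 2 ≤ n) (hi : i < n) :
    ∃ y, G.Adj (p i) y := by
  rcases Nat.lt_or_ge (i + 1) n with h1 | h1
  · exact ⟨_, h.adj h1⟩
  · obtain ⟨j, rfl⟩ : ∃ j, i = j + 1 := ⟨i - 1, by omega⟩
    exact ⟨_, (h.adj hi).symm⟩

end

/-- a chordal graph on `0, …, N` with Hamiltonian path `0, 1, …, N` -/
structure Pre (G : SimpleGraph ℕ) (N k l : ℕ) (ρ : ℕ → ℕ) : Prop where
  range : ∀ x y, G.Adj x y → x ≤ N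
  cons : ∀ i < N, G.Adj i (i + 1)
  ne : ∀ x y, G.Adj x y → ρ x ≠ ρ y
  clique : ∀ x x' y, G.Adj x y → G.Adj x' y → ρ x < ρ y → ρ x' < ρ y → x ≠ x' → G.Adj x x'
  card : ∀ (y : ℕ) (s : Finset ℕ), (∀ x ∈ s, G.Adj x y ∧ ρ x < ρ y) → s.card ≤ k
  len : ∀ p n, IndP G p n → n ≤ l

/-- the same with two adjacent terminals -/
structure Gad (G : SimpleGraph ℕ) (N k l e : ℕ) (ρ : ℕ → ℕ) : Prop extends Pre G N k l ρ where
  pos : 1 ≤ N
  adj : G.Adj 0 N
  low : ∀ x, 0 < x → x < N → ρ 0 < ρ x ∧ ρ N < ρ x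
  elen : ∀ p n, IndP G p n → (p 0 = 0 ∨ p 0 = N) → n ≤ e

lemma pre_bot {l : ℕ} (hl : 1 ≤ l) : Pre ⊥ 0 0 l id where
  range := by simp
  cons := by simp
  ne := by simp
  clique := by simp
  card := by
    intro y s h
    simp only [SimpleGraph.bot_adj, false_and] at h
    rw [Finset.eq_empty_of_forall_notMem h]; simp
  len := by
    intro p n h
    by_contra h'
    exact h.adj (i := 0) (by omega)

/-- the path on `0, …, N` -/
def pathN (N : ℕ) : SimpleGraph ℕ where
  Adj x y := (x + 1 = y ∨ y + 1 = x) ∧ x ≤ N ∧ y ≤ N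
  symm := ⟨fun _ _ h => ⟨h.1.symm, h.2.2, h.2.1⟩⟩
  loopless := ⟨fun _ h => by have := h.1; omega⟩

lemma pre_path (N : ℕ) : Pre (pathN N) N 1 (N + 1) id where
  range := fun _ _ h => h.2.1
  cons := fun i hi => ⟨Or.inl rfl, by omega, by omega⟩
  ne := fun x y h => h.ne
  clique := by
    intro x x' y h1 h2 h3 h4 h5
    have := h1.1
    have := h2.1
    simp only [id] at h3 h4
    omega
  card := by
    intro y s h
    refine (card_le_card (t := {y - 1}) (fun x hx => ?_)).trans (card_singleton _).le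
    have h1 := (h x hx).1.1
    have h2 := (h x hx).2
    simp only [id] at h2
    rw [mem_singleton]
    omega
  len := by
    intro p n h
    by_contra h'
    have h1 := card_le_card_of_injOn (s := range n) (t := range (N + 1)) p (by
      intro i hi
      obtain ⟨y, hy⟩ := h.exists_adj (i := i) (by omega) (by simpa using hi)
      have := hy.2.1
      simp only [coe_range, Set.mem_Iio]
      omega) (fun i hi j hj hij => h.1 i (by simpa using hi) j (by simpa using hj) hij)
    simp only [card_range] at h1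
    omega

/-- add two universal vertices -/
def cone (H : SimpleGraph ℕ) (N : ℕ) : SimpleGraph ℕ where
  Adj x y := x ≠ y ∧ x ≤ N + 2 ∧ y ≤ N + 2 ∧
    (x = 0 ∨ y = 0 ∨ x = N + 2 ∨ y = N + 2 ∨ H.Adj (x - 1) (y - 1))
  symm := ⟨fun _ _ h => ⟨h.1.symm, h.2.2.1, h.2.1, by
    rcases h.2.2.2 with h | h | h | h | h
    · exact Or.inr (Or.inl h)
    · exact Or.inl h
    · exact Or.inr (Or.inr (Or.inr (Or.inl h)))
    · exact Or.inr (Or.inr (Or.inl h))
    · exact Or.inr (Or.inr (Or.inr (Or.inr h.symm)))⟩⟩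
  loopless := ⟨fun _ h => h.1 rfl⟩

/-- the rank function on the cone -/
def coneRank (N : ℕ) (ρ : ℕ → ℕ) (x : ℕ) : ℕ :=
  if x = 0 then 0 else if x = N + 2 then 1 else ρ (x - 1) + 2

lemma cone_adj_univ {H : SimpleGraph ℕ} {N x y : ℕ} (hx : x = 0 ∨ x = N + 2) (hy : y ≤ N + 2)
    (hxy : x ≠ y) : (cone H N).Adj x y :=
  ⟨hxy, by omega, hy, by tauto⟩

lemma cone_adj_inner {H : SimpleGraph ℕ} {N x y : ℕ} (hx : ¬ (x = 0 ∨ x = N + 2))
    (hy : ¬ (y = 0 ∨ y = N + 2)) (h : (cone H N).Adj x y) : H.Adj (x - 1) (y - 1) := by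
  have := h.2.2.2
  tauto

lemma coneRank_inner {N x : ℕ} {ρ : ℕ → ℕ} (hx : ¬ (x = 0 ∨ x = N + 2)) :
    coneRank N ρ x = ρ (x - 1) + 2 := by
  push Not at hx
  simp [coneRank, hx.1, hx.2]

lemma coneRank_univ {N x : ℕ} {ρ : ℕ → ℕ} (hx : x = 0 ∨ x = N + 2) :
    coneRank N ρ x = if x = 0 then 0 else 1 := by
  rcases hx with h | h <;> simp [coneRank, h]

lemma gad_cone {H : SimpleGraph ℕ} {N k l : ℕ} {ρ : ℕ → ℕ} (h : Pre H N k l ρ) :
    Gad (cone H N) (N + 2) (k + 2) (l + 3) 2 (coneRank N ρ) where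
  range := fun _ _ h => h.2.1
  cons := by
    intro i hi
    refine ⟨by omega, by omega, by omega, ?_⟩
    by_cases h0 : i = 0
    · exact Or.inl h0
    by_cases h1 : i + 1 = N + 2
    · exact Or.inr (Or.inr (Or.inr (Or.inl h1)))
    refine Or.inr (Or.inr (Or.inr (Or.inr ?_)))
    have := h.cons (i - 1) (by omega)
    rwa [show i - 1 + 1 = i + 1 - 1 by omega] at this
  ne := by
    intro x y hxy
    have hne := hxy.1
    by_cases hx : x = 0 ∨ x = N + 2 <;> by_cases hy : y = 0 ∨ y = N + 2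
    · rw [coneRank_univ hx, coneRank_univ hy]
      split_ifs <;> omega
    · rw [coneRank_univ hx, coneRank_inner hy]
      split_ifs <;> omega
    · rw [coneRank_inner hx, coneRank_univ hy]
      split_ifs <;> omega
    · rw [coneRank_inner hx, coneRank_inner hy]
      have := h.ne _ _ (cone_adj_inner hx hy hxy)
      omega
  clique := by
    intro x x' y h1 h2 h3 h4 h5
    by_cases hx : x = 0 ∨ x = N + 2
    · exact cone_adj_univ hx h2.2.1 h5
    by_cases hx' : x' = 0 ∨ x' = N + 2
    · exact (cone_adj_univ hx' h1.2.1 h5.symm).symm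
    by_cases hy : y = 0 ∨ y = N + 2
    · rw [coneRank_inner hx, coneRank_univ hy] at h3
      split_ifs at h3 <;> omega
    rw [coneRank_inner hx, coneRank_inner hy] at h3
    rw [coneRank_inner hx', coneRank_inner hy] at h4
    refine ⟨h5, h1.2.1, h2.2.1, Or.inr (Or.inr (Or.inr (Or.inr ?_)))⟩
    exact h.clique _ _ _ (cone_adj_inner hx hy h1) (cone_adj_inner hx' hy h2) (by omega) (by omega)
      (by omega)
  card := by
    intro y s hs
    have h1 : (s.filter (fun x => x = 0 ∨ x = N + 2)).card ≤ 2 := by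
      refine (card_le_card (t := {0, N + 2}) (fun x hx => ?_)).trans card_le_two
      simpa using (mem_filter.1 hx).2
    have h2 : (s.filter (fun x => ¬ (x = 0 ∨ x = N + 2))).card ≤ k := by
      rw [← card_image_of_injOn (f := fun x => x - 1)]
      · refine h.card (y - 1) _ ?_
        intro x hx
        obtain ⟨x', hx', rfl⟩ := mem_image.1 hx
        obtain ⟨hx1, hx2⟩ := mem_filter.1 hx'
        obtain ⟨h3, h4⟩ := hs x' hx1
        by_cases hy : y = 0 ∨ y = N + 2
        · rw [coneRank_inner hx2, coneRank_univ hy] at h4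
          split_ifs at h4 <;> omega
        · rw [coneRank_inner hx2, coneRank_inner hy] at h4
          exact ⟨cone_adj_inner hx2 hy h3, by omega⟩
      · intro x hx x' hx' hxx
        have h3 := (mem_filter.1 hx).2
        have h4 := (mem_filter.1 hx').2
        simp only at hxx
        omega
    have := card_filter_add_card_filter_not (s := s) (fun x => x = 0 ∨ x = N + 2)
    omega
  len := by
    intro p n hp
    by_contra hn
    have hr : ∀ i < n, p i ≤ N + 2 := by
      intro i hi
      obtain ⟨y, hy⟩ := hp.exists_adj (by omega) hi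
      exact hy.2.1
    have hin : ∀ i < n, ¬ (p i = 0 ∨ p i = N + 2) := by
      intro i hi hu
      have key : ∀ j < n, j ≠ i → i + 1 = j ∨ j + 1 = i := fun j hj hji =>
        (hp.2 i hi j hj).1 (cone_adj_univ hu (hr j hj) (fun h' => hji (hp.1 i hi j hj h').symm))
      have k0 := key 0 (by omega)
      have k1 := key 1 (by omega)
      have k2 := key 2 (by omega)
      have k3 := key 3 (by omega)
      omega
    have := h.len (fun i => p i - 1) n ⟨?_, ?_⟩
    · omega
    · intro i hi j hj hij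
      have h1 := hin i hi
      have h2 := hin j hj
      simp only at hij
      exact hp.1 i hi j hj (by omega)
    · intro i hi j hj
      rw [← hp.2 i hi j hj]
      refine ⟨fun h' => ⟨?_, hr i hi, hr j hj, Or.inr (Or.inr (Or.inr (Or.inr h')))⟩,
        cone_adj_inner (hin i hi) (hin j hj)⟩
      intro h''
      exact h'.ne (congrArg (fun x => x - 1) h'')
  pos := by omega
  adj := cone_adj_univ (Or.inl rfl) le_rfl (by omega)
  low := by
    intro x h1 h2
    rw [coneRank_univ (Or.inl rfl), coneRank_univ (Or.inr rfl), coneRank_inner (by omega)]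
    simp
  elen := by
    intro p n hp h0
    by_contra hn
    obtain ⟨y, hy⟩ := hp.exists_adj (i := 2) (by omega) (by omega)
    have := (hp.2 0 (by omega) 2 (by omega)).1 (cone_adj_univ h0 hy.2.1
      (fun h' => by have := hp.1 0 (by omega) 2 (by omega) h'; omega))
    omega

end Pool.Agent.Lib.MP_6d7b3f_co
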