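import Pool.Agent.Lib.MP_6d7b3f_co.Elim

namespace Pool.Agent.Lib.MP_6d7b3f_co

open Finset
open scoped Classical

variable {V : Type*}

namespace Elim

variable {G : SimpleGraph V} {k m : ℕ} {E : Elim G k m}

lemma chain_split {t y a s : V} (hs : E.Child s a) (hys : y ∈ E.C s) :
    E.Chain t y ⊆ E.Chain t a ∪ E.Chain s y := by
  intro z hz
  obtain ⟨hz1, hz2⟩ := mem_Chain.1 hz
  rcases E.lam hz2 hys with h | h
  · exact mem_union.2 (Or.inr (mem_Chain.2 ⟨h, hz2⟩))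
  · rcases hs.2.2 z h with h1 | h1
    · exact mem_union.2 (Or.inr (mem_Chain.2 ⟨h1 ▸ E.self z, hz2⟩))
    · exact mem_union.2 (Or.inl (mem_Chain.2 ⟨hz1, h1⟩))

lemma chain_self (t : V) : (E.Chain t t).card ≤ 1 := by
  refine (card_le_card (t := {t}) (fun z hz => ?_)).trans (card_singleton t).le
  obtain ⟨h1, h2⟩ := mem_Chain.1 hz
  exact mem_singleton.2 (E.anti h1 h2)

lemma depth_aux (j : ℕ) : ∀ (Z : Finset V) (t y : V), k ≤ Z.card + j → y ∈ E.C t → Z ⊆ E.S t →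
    Z ⊆ E.S y → (E.Chain t y).card ≤ (m + 1) ^ j := by
  induction j with
  | zero =>
    intro Z t y hk hy ht hZ
    by_cases hyt : y = t
    · rw [hyt]; simpa using chain_self t
    · exfalso
      obtain ⟨s, hs, hys⟩ := exists_child hy hyt
      have h1 : insert t Z ⊆ E.S s := insert_subset hs.mem_S (sandwich_sub hs.1 hys ht hZ)
      have h2 : t ∉ Z := fun h => not_mem_C (ht h) (E.self t)
      have h3 := card_le_card h1
      rw [card_insert_of_notMem h2] at h3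
      have := E.card_S s
      omega
  | succ j ih =>
    intro Z t y hk hy ht hZ
    have inner : ∀ (i a : ℕ) (t' v : V), m + 1 ≤ a + i → y ∈ E.C t' → Z ⊆ E.S t' → v ∈ E.S t' →
        v ∉ Z → E.Val t' v a → (E.Chain t' y).card ≤ i * (m + 1) ^ j := by
      intro i
      induction i with
      | zero =>
        intro a t' v h _ _ _ _ hv
        have := hv.le
        omega
      | succ i ihi =>
        intro a t' v h hy' ht' hv hvZ hval
        have hcard : k ≤ (insert v Z).card + j := by rw [card_insert_of_notMem hvZ]; omega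
        obtain ⟨b, hb, hmin⟩ := Finset.exists_min_image
          ((E.Chain t' y).filter (fun z => v ∈ E.S z)) (fun z => (E.C z).card)
          ⟨t', mem_filter.2 ⟨mem_Chain.2 ⟨E.self t', hy'⟩, hv⟩⟩
        obtain ⟨hb1, hb2⟩ := mem_filter.1 hb
        obtain ⟨hb3, hb4⟩ := mem_Chain.1 hb1
        have h1 := ih (insert v Z) t' b hcard hb3 (insert_subset hv ht')
          (insert_subset hb2 (sandwich_sub hb3 hb4 ht' hZ))
        by_cases hyb : y = b
        · rw [hyb]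
          calc _ ≤ (m + 1) ^ j := h1
            _ ≤ (i + 1) * (m + 1) ^ j := Nat.le_mul_of_pos_left _ (Nat.succ_pos i)
        · obtain ⟨s, hs, hys⟩ := exists_child hb4 hyb
          have hst : s ∈ E.C t' := E.trans hb3 hs.1
          have hvs : v ∉ E.S s := by
            intro h'
            have h2 := hmin s (mem_filter.2 ⟨mem_Chain.2 ⟨hst, hys⟩, h'⟩)
            have h3 : E.C s = E.C b := Finset.eq_of_subset_of_card_le (E.trans hs.1) h2
            exact hs.not_mem (h3 ▸ E.self b)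
          obtain ⟨w, hw1, hw2, hw3⟩ := hval.high' hst hv hvs
          have h2 := ihi (a + 1) s w (by omega) hys (sandwich_sub hst hys ht' hZ) hw1
            (fun h' => not_mem_C (ht' h') hw2) hw3
          have h3 := (card_le_card (chain_split (t := t') hs hys)).trans (card_union_le _ _)
          rw [Nat.succ_mul]
          omega
    by_cases hyt : y = t
    · rw [hyt]
      exact (chain_self t).trans (Nat.one_le_pow _ _ (Nat.succ_pos m))
    · obtain ⟨s, hs, hys⟩ := exists_child hy hyt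
      have h1 := inner m 1 s t (by omega) hys (sandwich_sub hs.1 hys ht hZ) hs.mem_S
        (fun h => not_mem_C (ht h) (E.self t)) (val_one s t)
      have h3 := (card_le_card (chain_split (t := t) hs hys)).trans (card_union_le _ _)
      have h4 := chain_self (E := E) t
      have h5 : 1 ≤ (m + 1) ^ j := Nat.one_le_pow _ _ (Nat.succ_pos m)
      rw [pow_succ]
      nlinarith

lemma depth (t y : V) : (E.Chain t y).card ≤ (m + 1) ^ k := by
  by_cases hy : y ∈ E.C t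
  · exact depth_aux k ∅ t y (by simp) hy (empty_subset _) (empty_subset _)
  · have : E.Chain t y = ∅ := by
      rw [Finset.eq_empty_iff_forall_notMem]
      intro z hz
      obtain ⟨h1, h2⟩ := mem_Chain.1 hz
      exact hy (E.trans h1 h2)
    rw [this]; simp

/-- vertices of `C t` that separate `v` from some other vertex of `C t` -/
noncomputable def Xi (E : Elim G k m) (t v : V) : Finset V :=
  (E.C t).filter (fun x => ∃ u ∈ E.C t, u ≠ x ∧ ¬ Reach G {z | z ∈ E.C t ∧ z ≠ x} v u)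

lemma card_Xi {t v : V} (hv : v ∈ E.S t) : (E.Xi t v).card ≤ (2 * k + 2) * m := by
  have hpath : ∀ w ∈ E.C t, ∃ Q : Finset V, Q.card ≤ m ∧
      ∀ x, x ∉ Q → Reach G {z | z ∈ E.C t ∧ z ≠ x} v w := by
    intro w hw
    obtain ⟨q, len, _, h2, h3, h4, h5⟩ := extend (G := G) (p := fun _ => v) (len := 0) (w := w)
      (A := E.C t) (indP_single v) (fun i hi => absurd hi (Nat.not_lt_zero i)) (reach_C hw hv)
    refine ⟨(range (len + 1)).image q, ?_, ?_⟩
    · exact card_image_le.trans (by rw [card_range]; exact E.len q _ h2)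
    · intro x hx
      have h6 := h2.reach (A := {z | z ∈ E.C t ∧ z ≠ x}) (by
        intro i hi1 hi2
        refine ⟨h5 i hi1 (by omega), fun h => hx ?_⟩
        exact mem_image.2 ⟨i, mem_range.2 hi2, h⟩) len (Nat.lt_succ_self len)
      rw [h3, h4 0 le_rfl] at h6
      exact h6
  choose! Q hQ1 hQ2 using hpath
  have hsub : E.Xi t v ⊆ ((E.W (E.S t)).filter (fun w => w ∈ E.C t)).biUnion Q := by
    intro x hx
    obtain ⟨hx1, u, hu1, hu2, hu3⟩ := mem_filter.1 hx
    obtain ⟨w, hw1, hw2⟩ := E.port (E.S t)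
      {z | z ∈ E.C t ∧ z ≠ x ∧ ¬ Reach G {z | z ∈ E.C t ∧ z ≠ x} v z} x ⟨u, hu1, hu2, hu3⟩ (by
        intro z hz w hw hzw
        by_cases hwC : w ∈ E.C t
        · right
          by_contra hwx
          have h1 : Reach G {z | z ∈ E.C t ∧ z ≠ x} v w := by
            by_contra h
            exact hw ⟨hwC, hwx, h⟩
          exact hz.2.2 (h1.tail hzw.symm ⟨hz.1, hz.2.1⟩)
        · exact Or.inl (E.mem_S.2 ⟨hwC, z, hz.1, hzw⟩))
    refine mem_biUnion.2 ⟨w, mem_filter.2 ⟨hw1, hw2.1⟩, ?_⟩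
    by_contra h
    exact hw2.2.2 (hQ2 w hw2.1 x h)
  refine (card_le_card hsub).trans ((card_biUnion_le_card_mul _ _ m ?_).trans ?_)
  · intro w hw
    exact hQ1 w (mem_filter.1 hw).2
  · exact Nat.mul_le_mul_right m ((card_filter_le _ _).trans (card_W_S t))

/-- nodes with a descendant that is not `b`-good -/
noncomputable def Top (E : Elim G k m) (t : V) (Z : Finset V) (b : ℕ) : Finset V :=
  (E.Reg t Z).filter (fun s => ∃ y ∈ E.Reg s Z, ¬ E.Good Z y b)

lemma card_Top_one {t : V} {Z : Finset V} (hZ : Z ⊆ E.S t) :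
    (E.Top t Z 1).card ≤ (2 * k + 2) * (m + 1) ^ k := by
  have hsub : E.Top t Z 1 ⊆ (E.W Z).biUnion (fun w => E.Chain t w) := by
    intro s hs
    obtain ⟨hs1, y, hy1, hy2⟩ := mem_filter.1 hs
    have hx : ∃ x, ∀ w ∈ E.S y, w ∈ Z ∨ w = x := by
      by_cases h : ∃ x ∈ E.S y, x ∉ Z
      · obtain ⟨x, hx1, hx2⟩ := h
        refine ⟨x, fun w hw => ?_⟩
        by_contra h
        push Not at h
        exact hy2 ⟨w, hw, x, hx1, h.2, h.1, hx2, val_one _ _, val_one _ _⟩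
      · push Not at h
        exact ⟨y, fun w hw => Or.inl (h w hw)⟩
    obtain ⟨x, hx⟩ := hx
    obtain ⟨w, hw1, hw2⟩ := E.port Z (E.C y) x ⟨y, E.self y⟩
      (fun u hu w hw huw => hx w (E.mem_S.2 ⟨hw, u, hu, huw⟩))
    exact mem_biUnion.2 ⟨w, hw1, mem_Chain.2 ⟨(mem_Reg.1 hs1).1, E.trans (mem_Reg.1 hy1).1 hw2⟩⟩
  refine (card_le_card hsub).trans ((card_biUnion_le_card_mul _ _ _ (fun w _ => depth t w)).trans ?_)
  refine Nat.mul_le_mul_right _ ?_
  have h1 := E.card_W Z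
  have h2 := (card_le_card hZ).trans (E.card_S t)
  omega

lemma card_Top_succ {t : V} {Z : Finset V} {b R : ℕ} (hZ : Z ⊆ E.S t)
    (hgood : ∀ y ∈ E.Reg t Z, E.Good Z y b)
    (hR : ∀ (s : V) (Z' : Finset V), Z' ⊆ E.S s → Z'.card = Z.card + 2 → (E.Reg s Z').card ≤ R) :
    (E.Top t Z (b + 1)).card ≤
      R + 2 * ((2 * k + 2) * m) * ((2 * k + 2) * (R + (m + 1) ^ k)) := by
  obtain ⟨v1, hv1, v2, hv2, hne, hv1Z, hv2Z, hval1, hval2⟩ :=
    hgood t (mem_Reg.2 ⟨E.self t, hZ⟩)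
  let B : V → V → Finset V := fun x s => (E.C t).filter (fun z => ∃ y ∈ E.C z, y ∈ E.C s ∧
    Z ⊆ E.S y ∧ ¬ E.Good Z y (b + 1) ∧ x ∈ E.S y ∧ E.Val y x (b + 1))
  have hcard2 : ∀ x x' : V, x ≠ x' → x ∉ Z → x' ∉ Z → (insert x (insert x' Z)).card = Z.card + 2 := by
    intro x x' h1 h2 h3
    rw [card_insert_of_notMem (by simp [h1, h2]), card_insert_of_notMem h3]
  have hB : ∀ x ∈ E.C t, ∀ s, E.Child s x → (B x s).card ≤ R + (m + 1) ^ k := by
    intro x hx s hs
    rcases (B x s).eq_empty_or_nonempty with h | ⟨z0, hz0⟩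
    · rw [h]; simp
    obtain ⟨_, y0, _, hy0s, hy0Z, _⟩ := mem_filter.1 hz0
    have hst : s ∈ E.C t := E.trans hx hs.1
    have hZs : Z ⊆ E.S s := sandwich_sub hst hy0s hZ hy0Z
    have hxZ : x ∉ Z := fun h => not_mem_C (hZ h) hx
    obtain ⟨x', hx'1, hx'2, hx'3, hx'4⟩ : ∃ x' ∈ E.S s, x ≠ x' ∧ x' ∉ Z ∧ E.Val s x' b := by
      obtain ⟨u1, hu1, u2, hu2, h1, h2, h3, h4, h5⟩ := hgood s (mem_Reg.2 ⟨hst, hZs⟩)
      by_cases h : x = u1
      · exact ⟨u2, hu2, h ▸ h1, h3, h5⟩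
      · exact ⟨u1, hu1, h, h2, h4⟩
    have hZ' : insert x (insert x' Z) ⊆ E.S s := insert_subset hs.mem_S (insert_subset hx'1 hZs)
    have hsub : B x s ⊆ E.Reg s (insert x (insert x' Z)) ∪ E.Chain t s := by
      intro z hz
      obtain ⟨hzt, y, hyz, hys, hyZ, hbad, hxy, hval⟩ := mem_filter.1 hz
      have hx'y : x' ∈ E.S y := by
        by_contra h
        obtain ⟨w, hw1, hw2, hw3⟩ := hx'4.high' hys hx'1 h
        exact hbad ⟨x, hxy, w, hw1, fun h' => hs.not_mem (h' ▸ hw2), hxZ,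
          fun h' => not_mem_C (hZs h') hw2, hval, hw3⟩
      rcases E.lam hyz hys with h | h
      · exact mem_union.2 (Or.inl (mem_Reg.2 ⟨h, sandwich_sub h hyz hZ'
          (insert_subset hxy (insert_subset hx'y hyZ))⟩))
      · exact mem_union.2 (Or.inr (mem_Chain.2 ⟨hzt, h⟩))
    have h1 := hR s _ hZ' (hcard2 x x' hx'2 hxZ hx'3)
    have h2 := depth (E := E) t s
    have h3 := (card_le_card hsub).trans (card_union_le _ _)
    omega
  have hdrop : ∀ v ∈ E.S t, E.Val t v b → ∀ z ∈ E.C t, ∀ y ∈ E.C z, Z ⊆ E.S y →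
      ¬ E.Good Z y (b + 1) → v ∉ E.S y →
      z ∈ (E.Xi t v).biUnion (fun x => (E.children x).biUnion (fun s => B x s)) := by
    intro v hv hval z hz y hyz hyZ hbad hvy
    have hyt : y ∈ E.C t := E.trans hz hyz
    obtain ⟨x, hx1, hx2, hx3⟩ := hval.high' hyt hv hvy
    obtain ⟨s, hs, hys⟩ := exists_child (S_anc hx1) (S_ne hx1)
    refine mem_biUnion.2 ⟨x, mem_filter.2 ⟨hx2, y, hyt, S_ne hx1, ?_⟩,
      mem_biUnion.2 ⟨s, mem_children.2 hs, mem_filter.2 ⟨hz, y, hyz, hys, hyZ, hbad, hx1, hx3⟩⟩⟩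
    intro hr
    obtain ⟨w, hw1, hw2, hw3⟩ := hval.high hyt hv hvy (fun _ h => h.1) (E.self y) hr
    exact hbad ⟨x, hx1, w, hw1, fun h => hw2.2 h.symm, fun h => not_mem_C (hZ h) hx2,
      fun h => not_mem_C (hZ h) hw2.1, hx3, hw3⟩
  have hXi : ∀ v ∈ E.S t,
      ((E.Xi t v).biUnion (fun x => (E.children x).biUnion (fun s => B x s))).card ≤
        ((2 * k + 2) * m) * ((2 * k + 2) * (R + (m + 1) ^ k)) := by
    intro v hv
    refine (card_biUnion_le_card_mul _ _ ((2 * k + 2) * (R + (m + 1) ^ k)) ?_).trans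
      (Nat.mul_le_mul_right _ (card_Xi hv))
    intro x hx
    refine (card_biUnion_le_card_mul _ _ (R + (m + 1) ^ k) ?_).trans
      (Nat.mul_le_mul_right _ (card_children x))
    intro s hs
    exact hB x (mem_filter.1 hx).1 s (mem_children.1 hs)
  have hZ' : insert v1 (insert v2 Z) ⊆ E.S t := insert_subset hv1 (insert_subset hv2 hZ)
  have hsub : E.Top t Z (b + 1) ⊆ E.Reg t (insert v1 (insert v2 Z)) ∪
      ((E.Xi t v1).biUnion (fun x => (E.children x).biUnion (fun s => B x s)) ∪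
        (E.Xi t v2).biUnion (fun x => (E.children x).biUnion (fun s => B x s))) := by
    intro z hz
    obtain ⟨hz1, y, hy1, hbad⟩ := mem_filter.1 hz
    obtain ⟨hzt, _⟩ := mem_Reg.1 hz1
    obtain ⟨hyz, hyZ⟩ := mem_Reg.1 hy1
    by_cases h1 : v1 ∈ E.S y
    · by_cases h2 : v2 ∈ E.S y
      · exact mem_union.2 (Or.inl (mem_Reg.2 ⟨hzt, sandwich_sub hzt hyz hZ'
          (insert_subset h1 (insert_subset h2 hyZ))⟩))
      · exact mem_union.2 (Or.inr (mem_union.2 (Or.inr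
          (hdrop v2 hv2 hval2 z hzt y hyz hyZ hbad h2))))
    · exact mem_union.2 (Or.inr (mem_union.2 (Or.inl
        (hdrop v1 hv1 hval1 z hzt y hyz hyZ hbad h1))))
  have h1 := hR t _ hZ' (hcard2 v1 v2 hne hv1Z hv2Z)
  have h2 := hXi v1 hv1
  have h3 := hXi v2 hv2
  have h4 := (card_le_card hsub).trans (card_union_le _ _)
  have h5 := card_union_le
    ((E.Xi t v1).biUnion (fun x => (E.children x).biUnion (fun s => B x s)))
    ((E.Xi t v2).biUnion (fun x => (E.children x).biUnion (fun s => B x s)))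
  rw [mul_assoc 2]
  omega

/-- one level of the recursion -/
lemma level_step {t : V} {Z : Finset V} {b K M : ℕ} (hZ : Z ⊆ E.S t)
    (hK : (E.Top t Z b).card ≤ K)
    (hM : ∀ s ∈ E.Reg t Z, (∀ y ∈ E.Reg s Z, E.Good Z y b) → (E.Reg s Z).card ≤ M) :
    (E.Reg t Z).card ≤ M + K * (1 + (2 * k + 2) * M) := by
  have key : ∀ s ∈ E.Reg t Z, s ∉ E.Top t Z b → (E.Reg s Z).card ≤ M := by
    intro s hs hs'
    refine hM s hs (fun y hy => ?_)
    by_contra h
    exact hs' (mem_filter.2 ⟨hs, y, hy, h⟩)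
  by_cases ht : t ∈ E.Top t Z b
  · have h1 := cover hZ ht (M := M) (fun _ _ s _ hs hs' => key s hs hs')
    have h2 := Nat.mul_le_mul_right (1 + (2 * k + 2) * M) hK
    omega
  · have := key t (mem_Reg.2 ⟨E.self t, hZ⟩) ht
    omega

lemma reg_one {t : V} {Z : Finset V} (hZ : Z ⊆ E.S t) (hk : k ≤ Z.card + 1) :
    (E.Reg t Z).card ≤ (2 * k + 2) * (m + 1) ^ k := by
  have h := level_step (M := 0) hZ (card_Top_one hZ) (by
    intro s hs hgood
    exfalso
    obtain ⟨v1, hv1, v2, hv2, hne, h1, h2, _⟩ :=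
      hgood s (mem_Reg.2 ⟨E.self s, (mem_Reg.1 hs).2⟩)
    have h3 : insert v1 (insert v2 Z) ⊆ E.S s :=
      insert_subset hv1 (insert_subset hv2 (mem_Reg.1 hs).2)
    have h4 := (card_le_card h3).trans (E.card_S s)
    rw [card_insert_of_notMem (by simp [hne, h1]), card_insert_of_notMem h2] at h4
    omega)
  simpa using h

lemma reg_two_aux {Z : Finset V} (hk : k ≤ Z.card + 2) (i : ℕ) : ∀ (t v1 v2 : V) (a1 a2 : ℕ),
    Z ⊆ E.S t → (∀ y ∈ E.Reg t Z, E.Good Z y 1) → v1 ∈ E.S t → v2 ∈ E.S t → v1 ≠ v2 → v1 ∉ Z →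
    v2 ∉ Z → E.Val t v1 a1 → E.Val t v2 a2 → 2 * m + 1 ≤ a1 + a2 + i →
    (E.Reg t Z).card ≤ (2 * k + 3) ^ i := by
  induction i with
  | zero =>
    intro t v1 v2 a1 a2 _ _ _ _ _ _ _ h1 h2 h
    have := h1.le
    have := h2.le
    omega
  | succ i ih =>
    intro t v1 v2 a1 a2 hZ hgood hv1 hv2 hne h1Z h2Z hval1 hval2 h
    have h3 : ∀ (s x y z : V), Z ⊆ E.S s → x ∈ E.S s → y ∈ E.S s → z ∈ E.S s → x ∉ Z → y ∉ Z →
        z ∉ Z → x ≠ y → x ≠ z → y ≠ z → False := by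
      intro s x y z hs hx hy hz hxZ hyZ hzZ hxy hxz hyz
      have h3 : insert x (insert y (insert z Z)) ⊆ E.S s :=
        insert_subset hx (insert_subset hy (insert_subset hz hs))
      have h4 := (card_le_card h3).trans (E.card_S s)
      rw [card_insert_of_notMem (by simp [hxy, hxz, hxZ]),
        card_insert_of_notMem (by simp [hyz, hyZ]), card_insert_of_notMem hzZ] at h4
      omega
    have htZ : t ∉ Z := fun h => not_mem_C (hZ h) (E.self t)
    have step : ∀ (u1 u2 : V) (b1 b2 : ℕ), u1 ∈ E.S t → u2 ∈ E.S t → u1 ≠ u2 → u1 ∉ Z → u2 ∉ Z →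
        E.Val t u1 b1 → E.Val t u2 b2 → 2 * m + 1 ≤ b1 + b2 + (i + 1) →
        ∀ s, E.Child s t → Z ⊆ E.S s → u2 ∉ E.S s → (E.Reg s Z).card ≤ (2 * k + 3) ^ i := by
      intro u1 u2 b1 b2 hu1 hu2 hu hu1Z hu2Z hb1 hb2 hb s hs hZs hu2s
      have hgs : ∀ y ∈ E.Reg s Z, E.Good Z y 1 := fun y hy =>
        hgood y (mem_Reg.2 ⟨E.trans hs.1 (mem_Reg.1 hy).1, (mem_Reg.1 hy).2⟩)
      obtain ⟨w, hw1, hw2, hw3⟩ := hb2.high' hs.1 hu2 hu2s
      have hu1s : u1 ∈ E.S s := by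
        obtain ⟨x1, hx1, x2, hx2, hx, hx1Z, hx2Z, _⟩ := hgs s (mem_Reg.2 ⟨E.self s, hZs⟩)
        have hx' : ∀ x ∈ E.S s, x ∉ Z → x ≠ t → x = u1 := by
          intro x hx hxZ hxt
          by_contra hxu
          rcases hs.S_sub hx with h5 | h5
          · exact h3 t x u1 u2 hZ h5 hu1 hu2 hxZ hu1Z hu2Z hxu (fun h => hu2s (h ▸ hx)) hu
          · exact hxt h5
        by_cases h5 : x1 = t
        · exact hx' x2 hx2 hx2Z (fun h => hx (h5.trans h.symm)) ▸ hx2
        · exact hx' x1 hx1 hx1Z h5 ▸ hx1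
      exact ih s u1 w b1 (b2 + 1) hZs hgs hu1s hw1 (fun h => not_mem_C hu1 (h ▸ hw2)) hu1Z
        (fun h => not_mem_C (hZ h) hw2) (hb1.mono hs.1) hw3 (by omega)
    have h4 := cover (A := {t}) (M := (2 * k + 3) ^ i) hZ (mem_singleton_self t) (by
      intro a ha s hs hsR _
      rw [mem_singleton] at ha
      rw [ha] at hs
      have hZs := (mem_Reg.1 hsR).2
      by_cases h5 : v2 ∈ E.S s
      · by_cases h6 : v1 ∈ E.S s
        · exact (h3 s v1 v2 t hZs h6 h5 hs.mem_S h1Z h2Z htZ hne (S_ne hv1).symm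
            (S_ne hv2).symm).elim
        · exact step v2 v1 a2 a1 hv2 hv1 hne.symm h2Z h1Z hval2 hval1 (by omega) s hs hZs h6
      · exact step v1 v2 a1 a2 hv1 hv2 hne h1Z h2Z hval1 hval2 h s hs hZs h5)
    rw [card_singleton, one_mul] at h4
    have h5 : 1 ≤ (2 * k + 3) ^ i := Nat.one_le_pow _ _ (by omega)
    rw [pow_succ]
    nlinarith

lemma reg_two {t : V} {Z : Finset V} (hZ : Z ⊆ E.S t) (hk : k ≤ Z.card + 2) :
    (E.Reg t Z).card ≤ (2 * k + 3) ^ (2 * m) +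
      (2 * k + 2) * (m + 1) ^ k * (1 + (2 * k + 2) * (2 * k + 3) ^ (2 * m)) := by
  refine level_step hZ (card_Top_one hZ) ?_
  intro s hs hgood
  obtain ⟨v1, hv1, v2, hv2, hne, h1, h2, h3, h4⟩ :=
    hgood s (mem_Reg.2 ⟨E.self s, (mem_Reg.1 hs).2⟩)
  exact reg_two_aux hk (2 * m) s v1 v2 1 1 (mem_Reg.1 hs).2 hgood hv1 hv2 hne h1 h2 h3 h4 (by omega)

lemma reg_step {t : V} {Z : Finset V} {R K : ℕ} (hZ : Z ⊆ E.S t)
    (hR : ∀ (s : V) (Z' : Finset V), Z' ⊆ E.S s → Z'.card = Z.card + 2 → (E.Reg s Z').card ≤ R)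
    (hK1 : (2 * k + 2) * (m + 1) ^ k ≤ K)
    (hK2 : R + 2 * ((2 * k + 2) * m) * ((2 * k + 2) * (R + (m + 1) ^ k)) ≤ K) :
    (E.Reg t Z).card ≤ (1 + K * (2 * k + 3)) ^ (m + 1) := by
  have hnum : ∀ i : ℕ, (1 + K * (2 * k + 3)) ^ i + K * (1 + (2 * k + 2) * (1 + K * (2 * k + 3)) ^ i)
      ≤ (1 + K * (2 * k + 3)) ^ (i + 1) := by
    intro i
    have h5 : 1 ≤ (1 + K * (2 * k + 3)) ^ i := Nat.one_le_pow _ _ (by omega)
    rw [pow_succ]
    set X := (1 + K * (2 * k + 3)) ^ i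
    have := Nat.mul_le_mul_left K h5
    nlinarith
  have main : ∀ (i b : ℕ) (s : V), m + 1 ≤ b + i → Z ⊆ E.S s → (∀ y ∈ E.Reg s Z, E.Good Z y b) →
      (E.Reg s Z).card ≤ (1 + K * (2 * k + 3)) ^ i := by
    intro i
    induction i with
    | zero =>
      intro b s hb hs hgood
      obtain ⟨_, _, _, _, _, _, _, h3, _⟩ := hgood s (mem_Reg.2 ⟨E.self s, hs⟩)
      have := h3.le
      omega
    | succ i ih =>
      intro b s hb hs hgood
      refine (level_step hs ((card_Top_succ hs hgood hR).trans hK2) ?_).trans (hnum i)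
      intro s' hs' hgood'
      exact ih (b + 1) s' (by omega) (mem_Reg.1 hs').2 hgood'
  refine (level_step hZ ((card_Top_one hZ).trans hK1) ?_).trans (hnum m)
  intro s hs hgood
  exact main m 1 s (by omega) (mem_Reg.1 hs).2 hgood

end Elim

end Pool.Agent.Lib.MP_6d7b3f_co
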