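import Pool.Agent.Lib.MP_6d7b3f_co.Paths

namespace Pool.Agent.Lib.MP_6d7b3f_co

open Finset
open scoped Classical

variable {V : Type*}

/-- An elimination tree of width `k` of a traceable graph without long induced paths. -/
structure Elim (G : SimpleGraph V) (k m : ℕ) where
  C : V → Finset V
  S : V → Finset V
  W : Finset V → Finset V
  self : ∀ y, y ∈ C y
  trans : ∀ {y y'}, y' ∈ C y → C y' ⊆ C y
  lam : ∀ {u y y'}, u ∈ C y → u ∈ C y' → y ∈ C y' ∨ y' ∈ C y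
  anti : ∀ {y y'}, y ∈ C y' → y' ∈ C y → y = y'
  conn : ∀ {y u}, u ∈ C y → Reach G (C y) y u
  edge : ∀ {u w}, G.Adj u w → u ∈ C w ∨ w ∈ C u
  mem_S : ∀ {y w}, w ∈ S y ↔ w ∉ C y ∧ ∃ u ∈ C y, G.Adj u w
  card_S : ∀ y, (S y).card ≤ k
  card_W : ∀ O, (W O).card ≤ 2 * O.card + 2
  port : ∀ (O : Finset V) (U : Set V) (x : V), U.Nonempty →
    (∀ u ∈ U, ∀ w, w ∉ U → G.Adj u w → w ∈ O ∨ w = x) → ∃ w ∈ W O, w ∈ U
  len : ∀ p n, IndP G p n → n ≤ m

namespace Elim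

variable {G : SimpleGraph V} {k m : ℕ} (E : Elim G k m)

/-- `s` is a child of `x` -/
def Child (s x : V) : Prop := s ∈ E.C x ∧ s ≠ x ∧ ∀ z, s ∈ E.C z → z = s ∨ x ∈ E.C z

/-- children of `x` -/
noncomputable def children (x : V) : Finset V := (E.C x).filter (fun s => E.Child s x)

/-- nodes below `t` whose separator contains `Z` -/
noncomputable def Reg (t : V) (Z : Finset V) : Finset V := (E.C t).filter (fun y => Z ⊆ E.S y)

/-- nodes between `t` and `y` -/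
noncomputable def Chain (t y : V) : Finset V := (E.C t).filter (fun z => y ∈ E.C z)

/-- there is an induced path with at least `a` vertices ending at `v`, whose other vertices avoid
`C y` and `S y` -/
def Val (y v : V) (a : ℕ) : Prop :=
  ∃ (p : ℕ → V) (len : ℕ), IndP G p (len + 1) ∧ a ≤ len + 1 ∧ p len = v ∧
    ∀ i < len, p i ∉ E.C y ∧ p i ∉ E.S y

/-- two vertices of value at least `b` -/
def Good (Z : Finset V) (y : V) (b : ℕ) : Prop :=
  ∃ v1 ∈ E.S y, ∃ v2 ∈ E.S y, v1 ≠ v2 ∧ v1 ∉ Z ∧ v2 ∉ Z ∧ E.Val y v1 b ∧ E.Val y v2 b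

variable {E}

lemma mem_children {s x : V} : s ∈ E.children x ↔ E.Child s x := by
  simp only [children, mem_filter]
  exact ⟨fun h => h.2, fun h => ⟨h.1, h⟩⟩

lemma mem_Reg {t y : V} {Z : Finset V} : y ∈ E.Reg t Z ↔ y ∈ E.C t ∧ Z ⊆ E.S y := by
  simp only [Reg, mem_filter]

lemma mem_Chain {t y z : V} : z ∈ E.Chain t y ↔ z ∈ E.C t ∧ y ∈ E.C z := by
  simp only [Chain, mem_filter]

lemma not_mem_C {y w : V} (h : w ∈ E.S y) : w ∉ E.C y := (E.mem_S.1 h).1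

lemma S_anc {y w : V} (h : w ∈ E.S y) : y ∈ E.C w := by
  obtain ⟨h1, u, hu, huw⟩ := E.mem_S.1 h
  rcases E.edge huw with h2 | h2
  · rcases E.lam hu h2 with h3 | h3
    · exact h3
    · exact absurd h3 h1
  · exact absurd (E.trans hu h2) h1

lemma S_ne {y w : V} (h : w ∈ E.S y) : y ≠ w := by
  rintro rfl
  exact not_mem_C h (E.self _)

lemma sandwich {y s z : V} (hy : y ∈ E.C s) (hz : z ∈ E.S y) (hz' : z ∉ E.C s) : z ∈ E.S s := by
  obtain ⟨_, u, hu, huw⟩ := E.mem_S.1 hz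
  exact E.mem_S.2 ⟨hz', u, E.trans hy hu, huw⟩

lemma sandwich_sub {t y s : V} {Z : Finset V} (hs : s ∈ E.C t) (hy : y ∈ E.C s)
    (ht : Z ⊆ E.S t) (hZ : Z ⊆ E.S y) : Z ⊆ E.S s := fun _ hz =>
  sandwich hy (hZ hz) (fun h => not_mem_C (ht hz) (E.trans hs h))

lemma exists_child {y x : V} (hy : y ∈ E.C x) (hne : y ≠ x) : ∃ s, E.Child s x ∧ y ∈ E.C s := by
  obtain ⟨s, hs, hmax⟩ := Finset.exists_max_image
    ((E.C x).filter (fun z => z ≠ x ∧ y ∈ E.C z)) (fun z => (E.C z).card)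
    ⟨y, mem_filter.2 ⟨hy, hne, E.self y⟩⟩
  obtain ⟨hs1, hs2, hs3⟩ := mem_filter.1 hs
  refine ⟨s, ⟨hs1, hs2, ?_⟩, hs3⟩
  intro z hz
  have hyz : y ∈ E.C z := E.trans hz hs3
  rcases E.lam hyz hy with h | h
  · by_cases hzx : z = x
    · right; rw [hzx]; exact E.self x
    · left
      have h1 := hmax z (mem_filter.2 ⟨h, hzx, hyz⟩)
      have h2 : E.C s = E.C z := Finset.eq_of_subset_of_card_le (E.trans hz) h1
      exact E.anti (h2 ▸ E.self z) hz
  · exact Or.inr h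

lemma Child.not_mem {s x : V} (h : E.Child s x) : x ∉ E.C s := fun h' => h.2.1 (E.anti h.1 h')

lemma Child.S_sub {s x w : V} (h : E.Child s x) (hw : w ∈ E.S s) : w ∈ E.S x ∨ w = x := by
  by_cases hwx : w ∈ E.C x
  · right
    rcases h.2.2 w (S_anc hw) with h1 | h1
    · exact absurd h1.symm (S_ne hw)
    · exact E.anti hwx h1
  · exact Or.inl (sandwich h.1 hw hwx)

lemma Child.mem_S {s x : V} (h : E.Child s x) : x ∈ E.S s := by
  by_contra hx
  obtain ⟨w, hw1, hw2, hw3, _⟩ := (E.conn h.1).first_hit (C := E.C s) (E.self s) h.not_mem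
    (fun h' => hx (E.mem_S.2 ⟨h.not_mem, h'⟩))
  have hw : w ∈ E.S s := E.mem_S.2 ⟨hw2, hw3⟩
  rcases h.S_sub hw with h1 | h1
  · exact not_mem_C h1 hw1
  · exact hx (h1 ▸ hw)

lemma Child.eq_of_mem {s s' x u : V} (h : E.Child s x) (h' : E.Child s' x) (hu : u ∈ E.C s)
    (hu' : u ∈ E.C s') : s = s' := by
  rcases E.lam hu hu' with h1 | h1
  · rcases h.2.2 s' h1 with h2 | h2
    · exact h2.symm
    · exact absurd h2 h'.not_mem
  · rcases h'.2.2 s h1 with h2 | h2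
    · exact h2
    · exact absurd h2 h.not_mem

lemma card_W_S (x : V) : (E.W (E.S x)).card ≤ 2 * k + 2 := by
  have h1 := E.card_W (E.S x)
  have h2 := E.card_S x
  omega

lemma card_children (x : V) : (E.children x).card ≤ 2 * k + 2 := by
  refine le_trans ?_ (card_W_S (E := E) x)
  have h : ∀ s ∈ E.children x, ∃ w ∈ E.W (E.S x), w ∈ E.C s := by
    intro s hs
    rw [mem_children] at hs
    exact E.port (E.S x) (E.C s) x ⟨s, E.self s⟩
      (fun u hu w hw huw => hs.S_sub (E.mem_S.2 ⟨hw, u, hu, huw⟩))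
  choose! g hg1 hg2 using h
  refine Finset.card_le_card_of_injOn g (fun s hs => hg1 s hs) ?_
  intro s hs s' hs' hss
  have hs1 : s ∈ E.children x := hs
  have hs2 : s' ∈ E.children x := hs'
  exact (mem_children.1 hs1).eq_of_mem (mem_children.1 hs2) (hg2 s hs1) (hss ▸ hg2 s' hs2)

lemma cover {t : V} {Z A : Finset V} {M : ℕ} (hZ : Z ⊆ E.S t) (ht : t ∈ A)
    (h : ∀ a ∈ A, ∀ s, E.Child s a → s ∈ E.Reg t Z → s ∉ A → (E.Reg s Z).card ≤ M) :
    (E.Reg t Z).card ≤ A.card * (1 + (2 * k + 2) * M) := by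
  have hsub : E.Reg t Z ⊆ A.biUnion (fun a => insert a
      (((E.children a).filter (fun s => s ∈ E.Reg t Z ∧ s ∉ A)).biUnion (fun s => E.Reg s Z))) := by
    intro y hy
    obtain ⟨hy1, hy2⟩ := mem_Reg.1 hy
    obtain ⟨a, ha, hmin⟩ := Finset.exists_min_image
      (A.filter (fun z => z ∈ E.C t ∧ y ∈ E.C z)) (fun z => (E.C z).card)
      ⟨t, mem_filter.2 ⟨ht, E.self t, hy1⟩⟩
    obtain ⟨ha1, ha2, ha3⟩ := mem_filter.1 ha
    refine mem_biUnion.2 ⟨a, ha1, ?_⟩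
    by_cases hya : y = a
    · exact mem_insert.2 (Or.inl hya)
    · obtain ⟨s, hs, hys⟩ := exists_child ha3 hya
      have hst : s ∈ E.C t := E.trans ha2 hs.1
      refine mem_insert.2 (Or.inr (mem_biUnion.2 ⟨s, mem_filter.2 ⟨mem_children.2 hs,
        mem_Reg.2 ⟨hst, sandwich_sub hst hys hZ hy2⟩, ?_⟩, mem_Reg.2 ⟨hys, hy2⟩⟩))
      intro hsA
      have h1 := hmin s (mem_filter.2 ⟨hsA, hst, hys⟩)
      have h2 : E.C s = E.C a := Finset.eq_of_subset_of_card_le (E.trans hs.1) h1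
      exact hs.not_mem (h2 ▸ E.self a)
  refine (card_le_card hsub).trans (card_biUnion_le_card_mul _ _ _ ?_)
  intro a ha
  refine (card_insert_le _ _).trans ?_
  have h1 := card_biUnion_le_card_mul
    ((E.children a).filter (fun s => s ∈ E.Reg t Z ∧ s ∉ A)) (fun s => E.Reg s Z) M (by
      intro s hs
      obtain ⟨h1, h2, h3⟩ := mem_filter.1 hs
      exact h a ha s (mem_children.1 h1) h2 h3)
  have h2 : ((E.children a).filter (fun s => s ∈ E.Reg t Z ∧ s ∉ A)).card ≤ 2 * k + 2 :=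
    (card_filter_le _ _).trans (card_children a)
  have h3 := Nat.mul_le_mul_right M h2
  omega

lemma val_one (y v : V) : E.Val y v 1 :=
  ⟨fun _ => v, 0, indP_single v, le_rfl, rfl, fun i hi => absurd hi (Nat.not_lt_zero i)⟩

lemma Val.le {y v : V} {a : ℕ} (h : E.Val y v a) : a ≤ m := by
  obtain ⟨p, len, h1, h2, _⟩ := h
  exact h2.trans (E.len p _ h1)

lemma Val.mono {t y v : V} {a : ℕ} (h : E.Val t v a) (hy : y ∈ E.C t) : E.Val y v a := by
  obtain ⟨p, len, h1, h2, h3, h4⟩ := h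
  refine ⟨p, len, h1, h2, h3, fun i hi => ⟨fun h => (h4 i hi).1 (E.trans hy h), fun h => ?_⟩⟩
  exact (h4 i hi).2 (sandwich hy h (h4 i hi).1)

lemma Val.high {t y v u : V} {a : ℕ} {B : Set V} (h : E.Val t v a) (hy : y ∈ E.C t)
    (hv : v ∈ E.S t) (hv' : v ∉ E.S y) (hB : B ⊆ E.C t) (hu : u ∈ E.C y) (hr : Reach G B v u) :
    ∃ w ∈ E.S y, w ∈ B ∧ E.Val y w (a + 1) := by
  have hvC : v ∉ E.C y := fun h' => not_mem_C hv (E.trans hy h')
  obtain ⟨w, hw1, hw2, hw3, hw4⟩ := hr.first_hit (C := E.C y) hu hvC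
    (fun h' => hv' (E.mem_S.2 ⟨hvC, h'⟩))
  have hw : w ∈ E.S y := E.mem_S.2 ⟨hw2, hw3⟩
  refine ⟨w, hw, hw1, ?_⟩
  obtain ⟨p, len, h1, h2, h3, h4⟩ := h
  have hsub : ∀ z, (z = w ∨ (z ∈ B ∧ z ∉ (E.C y : Set V) ∧ ¬ ∃ c ∈ (E.C y : Set V), G.Adj c z)) →
      z ∈ E.C t := by
    rintro z (hz | hz)
    · rw [hz]; exact hB hw1
    · exact hB hz.1
  obtain ⟨q, len', h5, h6, h7, h8, h9⟩ := extend h1 (w := w)
    (A := {z | z = w ∨ (z ∈ B ∧ z ∉ (E.C y : Set V) ∧ ¬ ∃ c ∈ (E.C y : Set V), G.Adj c z)}) (by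
      intro i hi
      refine ⟨fun h' => (h4 i hi).1 (hsub _ h'), fun c hc hadj => ?_⟩
      exact (h4 i hi).2 (E.mem_S.2 ⟨(h4 i hi).1, c, hsub _ hc, hadj.symm⟩)) (h3 ▸ hw4)
  have hne : len ≠ len' := by
    intro h'
    have : w = v := by rw [← h7, ← h', h8 len le_rfl, h3]
    exact hv' (this ▸ hw)
  refine ⟨q, len', h6, by omega, h7, ?_⟩
  intro i hi
  rcases Nat.lt_trichotomy i len with h' | h' | h'
  · rw [h8 i h'.le]
    exact ⟨fun h => (h4 i h').1 (E.trans hy h), fun h => (h4 i h').2 (sandwich hy h (h4 i h').1)⟩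
  · rw [h8 i h'.le, h', h3]
    exact ⟨hvC, hv'⟩
  · rcases h9 i h' hi.le with h10 | h10
    · have := h6.1 i (by omega) len' (by omega) (h10.trans h7.symm)
      omega
    · exact ⟨h10.2.1, fun h => h10.2.2 (E.mem_S.1 h).2⟩

lemma reach_C {t y v : V} (hy : y ∈ E.C t) (hv : v ∈ E.S t) : Reach G (E.C t) v y := by
  obtain ⟨_, u, hu, huv⟩ := E.mem_S.1 hv
  exact Reach.head huv.symm hu (((E.conn hu).symm (E.self t)).trans (E.conn hy))

lemma Val.high' {t y v : V} {a : ℕ} (h : E.Val t v a) (hy : y ∈ E.C t)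
    (hv : v ∈ E.S t) (hv' : v ∉ E.S y) : ∃ w ∈ E.S y, w ∈ E.C t ∧ E.Val y w (a + 1) :=
  h.high hy hv hv' (fun _ h => h) (E.self y) (reach_C hy hv)

end Elim

end Pool.Agent.Lib.MP_6d7b3f_co
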