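import Mathlib

namespace Pool.Agent.Lib.MP_6d7b3f_co

variable {V : Type*}

/-- `p 0, …, p (n-1)` is an induced path -/
def IndP (G : SimpleGraph V) (p : ℕ → V) (n : ℕ) : Prop :=
  (∀ i < n, ∀ j < n, p i = p j → i = j) ∧
    ∀ i < n, ∀ j < n, (G.Adj (p i) (p j) ↔ (i + 1 = j ∨ j + 1 = i))

/-- there is a walk from `a` to `b` all of whose vertices after the first lie in `A` -/
def Reach (G : SimpleGraph V) (A : Set V) : V → V → Prop :=
  Relation.ReflTransGen (fun x y => G.Adj x y ∧ y ∈ A)

/-- the same with a prescribed number of steps -/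
def Steps (G : SimpleGraph V) (A : Set V) : ℕ → V → V → Prop
  | 0, a, b => a = b
  | n + 1, a, b => ∃ c, G.Adj a c ∧ c ∈ A ∧ Steps G A n c b

variable {G : SimpleGraph V}

lemma Reach.refl (A : Set V) (a : V) : Reach G A a a := Relation.ReflTransGen.refl

lemma Reach.tail {A : Set V} {a b c : V} (h : Reach G A a b) (hbc : G.Adj b c) (hc : c ∈ A) :
    Reach G A a c := Relation.ReflTransGen.tail h ⟨hbc, hc⟩

lemma Reach.head {A : Set V} {a b c : V} (hab : G.Adj a b) (hb : b ∈ A) (h : Reach G A b c) :
    Reach G A a c := Relation.ReflTransGen.head ⟨hab, hb⟩ h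

lemma Reach.trans {A : Set V} {a b c : V} (h : Reach G A a b) (h' : Reach G A b c) :
    Reach G A a c := Relation.ReflTransGen.trans h h'

lemma Reach.mono {A B : Set V} (hAB : A ⊆ B) {a b : V} (h : Reach G A a b) : Reach G B a b := by
  induction h with
  | refl => exact Reach.refl _ _
  | tail _ hbc ih => exact ih.tail hbc.1 (hAB hbc.2)

lemma Reach.symm {A : Set V} {a b : V} (h : Reach G A a b) (ha : a ∈ A) : Reach G A b a := by
  induction h with
  | refl => exact Reach.refl _ _
  | @tail b c hab hbc ih =>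
    have hb : b ∈ A := by
      rcases Relation.ReflTransGen.cases_tail hab with h | ⟨_, _, h⟩
      · rw [h]; exact ha
      · exact h.2
    exact Reach.head hbc.1.symm hb ih

lemma Reach.mem {A : Set V} {a b : V} (h : Reach G A a b) : b = a ∨ b ∈ A := by
  rcases Relation.ReflTransGen.cases_tail h with h | ⟨_, _, h⟩
  · exact Or.inl h
  · exact Or.inr h.2

lemma Reach.steps {A : Set V} {a b : V} (h : Reach G A a b) : ∃ n, Steps G A n a b := by
  induction h using Relation.ReflTransGen.head_induction_on with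
  | refl => exact ⟨0, rfl⟩
  | head hac _ ih =>
    obtain ⟨n, hn⟩ := ih
    exact ⟨n + 1, _, hac.1, hac.2, hn⟩

lemma Steps.shrink {A : Set V} (v w : V) : ∀ (n : ℕ) (c : V), Steps G A n c w →
    Steps G {a | a ∈ A ∧ ¬ G.Adj v a ∧ a ≠ v} n c w ∨
      ∃ n1 < n, ∃ c1 ∈ A, (G.Adj v c1 ∨ c1 = v) ∧ Steps G A n1 c1 w
  | 0, _, h => Or.inl h
  | n + 1, c, ⟨d, hcd, hd, h⟩ => by
    by_cases hb : G.Adj v d ∨ d = v
    · exact Or.inr ⟨n, Nat.lt_succ_self n, d, hd, hb, h⟩
    · rcases Steps.shrink v w n d h with h1 | ⟨n1, hn1, h1⟩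
      · push Not at hb
        exact Or.inl ⟨d, hcd, ⟨hd, hb.1, hb.2⟩, h1⟩
      · exact Or.inr ⟨n1, by omega, h1⟩

lemma IndP.snoc {p : ℕ → V} {len : ℕ} (hp : IndP G p (len + 1)) {c : V}
    (hc : G.Adj (p len) c) (hn : ∀ i < len, p i ≠ c ∧ ¬ G.Adj (p i) c) :
    IndP G (fun i => if i = len + 1 then c else p i) (len + 2) := by
  constructor
  · intro i hi j hj h
    by_cases h1 : i = len + 1 <;> by_cases h2 : j = len + 1
    · omega
    · simp only [h1, h2, if_true, if_false] at h
      exfalso
      rcases Nat.lt_or_ge j len with h3 | h3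
      · exact (hn j h3).1 h.symm
      · have : j = len := by omega
        rw [this] at h
        exact hc.ne h.symm
    · simp only [h1, h2, if_true, if_false] at h
      exfalso
      rcases Nat.lt_or_ge i len with h3 | h3
      · exact (hn i h3).1 h
      · have : i = len := by omega
        rw [this] at h
        exact hc.ne h
    · simp only [h1, h2, if_false] at h
      exact hp.1 i (by omega) j (by omega) h
  · intro i hi j hj
    by_cases h1 : i = len + 1 <;> by_cases h2 : j = len + 1
    · simp only [h1, h2, if_true]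
      simp
    · simp only [h1, h2, if_true, if_false]
      rcases Nat.lt_or_ge j len with h3 | h3
      · constructor
        · intro h; exact absurd h.symm (hn j h3).2
        · intro h; omega
      · have : j = len := by omega
        rw [this]
        exact ⟨fun _ => Or.inr rfl, fun _ => hc.symm⟩
    · simp only [h1, h2, if_true, if_false]
      rcases Nat.lt_or_ge i len with h3 | h3
      · constructor
        · intro h; exact absurd h (hn i h3).2
        · intro h; omega
      · have : i = len := by omega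
        rw [this]
        exact ⟨fun _ => Or.inl rfl, fun _ => hc⟩
    · simp only [h1, h2, if_false]
      exact hp.2 i (by omega) j (by omega)

lemma extend_steps (w : V) (n : ℕ) : ∀ (A : Set V) (p : ℕ → V) (len : ℕ), IndP G p (len + 1) →
    (∀ i < len, p i ∉ A ∧ ∀ a ∈ A, ¬ G.Adj (p i) a) → Steps G A n (p len) w →
    ∃ (q : ℕ → V) (len' : ℕ), len ≤ len' ∧ IndP G q (len' + 1) ∧ q len' = w ∧
      (∀ i ≤ len, q i = p i) ∧ ∀ i, len < i → i ≤ len' → q i ∈ A := by
  induction n using Nat.strong_induction_on with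
  | _ n ih =>
    intro A p len hp hA hs
    cases n with
    | zero => exact ⟨p, len, le_rfl, hp, hs, fun _ _ => rfl, fun i h1 h2 => by omega⟩
    | succ n =>
      obtain ⟨c, hc, hcA, hs'⟩ := hs
      rcases Steps.shrink (p len) w n c hs' with h1 | ⟨n1, hn1, c1, hc1, h1 | h1, h2⟩
      · have hp' := hp.snoc hc (fun i hi => ⟨fun h => (hA i hi).1 (h ▸ hcA), (hA i hi).2 c hcA⟩)
        obtain ⟨q, len', h3, h4, h5, h6, h7⟩ := ih n (Nat.lt_succ_self n)
          {a | a ∈ A ∧ ¬ G.Adj (p len) a ∧ a ≠ p len} _ (len + 1) hp' (by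
          intro i hi
          have hi' : i ≠ len + 1 := by omega
          simp only [hi', if_false]
          rcases Nat.lt_or_ge i len with h3 | h3
          · exact ⟨fun h => (hA i h3).1 h.1, fun a ha => (hA i h3).2 a ha.1⟩
          · have : i = len := by omega
            rw [this]
            exact ⟨fun h => h.2.2 rfl, fun a ha => ha.2.1⟩) (by simpa using h1)
        refine ⟨q, len', by omega, h4, h5, ?_, ?_⟩
        · intro i hi
          rw [h6 i (by omega)]
          have hi' : i ≠ len + 1 := by omega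
          simp only [hi', if_false]
        · intro i hi1 hi2
          rcases Nat.lt_or_ge (len + 1) i with h8 | h8
          · exact (h7 i h8 hi2).1
          · have : i = len + 1 := by omega
            rw [h6 i (by omega), this]
            simpa using hcA
      · exact ih (n1 + 1) (by omega) A p len hp hA ⟨c1, h1, hc1, h2⟩
      · exact ih n1 (by omega) A p len hp hA (h1 ▸ h2)

lemma extend {A : Set V} {p : ℕ → V} {len : ℕ} {w : V} (hp : IndP G p (len + 1))
    (hA : ∀ i < len, p i ∉ A ∧ ∀ a ∈ A, ¬ G.Adj (p i) a) (h : Reach G A (p len) w) :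
    ∃ (q : ℕ → V) (len' : ℕ), len ≤ len' ∧ IndP G q (len' + 1) ∧ q len' = w ∧
      (∀ i ≤ len, q i = p i) ∧ ∀ i, len < i → i ≤ len' → q i ∈ A := by
  obtain ⟨n, hn⟩ := h.steps
  exact extend_steps w n A p len hp hA hn

lemma indP_single (v : V) : IndP G (fun _ => v) 1 := by
  constructor
  · intro i hi j hj _; omega
  · intro i hi j hj
    simp only [SimpleGraph.irrefl, false_iff]
    omega

lemma IndP.reach {p : ℕ → V} {n : ℕ} (hp : IndP G p n) {A : Set V}
    (hA : ∀ i, 0 < i → i < n → p i ∈ A) : ∀ i < n, Reach G A (p 0) (p i) := by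
  intro i
  induction i with
  | zero => intro _; exact Reach.refl _ _
  | succ i ih =>
    intro hi
    exact (ih (by omega)).tail ((hp.2 i (by omega) (i + 1) hi).2 (Or.inl rfl))
      (hA _ (by omega) hi)

/-- first hitting of the boundary of a set `C` -/
lemma Reach.first_hit {B C : Set V} {a u : V} (h : Reach G B a u) (hu : u ∈ C) :
    a ∉ C → (¬ ∃ c ∈ C, G.Adj c a) →
    ∃ w ∈ B, w ∉ C ∧ (∃ c ∈ C, G.Adj c w) ∧
      Reach G {z | z = w ∨ (z ∈ B ∧ z ∉ C ∧ ¬ ∃ c ∈ C, G.Adj c z)} a w := by
  induction h using Relation.ReflTransGen.head_induction_on with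
  | refl => intro h; exact absurd hu h
  | @head a c hac _ ih =>
    intro ha ha'
    have hcC : c ∉ C := fun h => ha' ⟨c, h, hac.1.symm⟩
    by_cases hc : ∃ c' ∈ C, G.Adj c' c
    · exact ⟨c, hac.2, hcC, hc, Reach.head hac.1 (Or.inl rfl) (Reach.refl _ _)⟩
    · obtain ⟨w, hw1, hw2, hw3, hw4⟩ := ih hcC hc
      exact ⟨w, hw1, hw2, hw3, Reach.head hac.1 (Or.inr ⟨hac.2, hcC, hc⟩) hw4⟩

end Pool.Agent.Lib.MP_6d7b3f_co
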