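import Pool.Agent.Lib.MP_6d7b3f_co.Comp
import Pool.Agent.Lib.MP_6d7b3f_co.Defs

namespace Pool.Agent.Lib.MP_6d7b3f_co

open Finset
open scoped Classical

lemma isTree_of_parent {n : ℕ} (σ : Fin (n + 1) → ℕ) (r : Fin (n + 1))
    (par : Fin (n + 1) → Fin (n + 1)) (h : ∀ y, y ≠ r → σ (par y) < σ y) :
    (SimpleGraph.fromRel (fun a b => a ≠ r ∧ b = par a)).IsTree := by
  set T := SimpleGraph.fromRel (fun a b => a ≠ r ∧ b = par a) with hT
  have hadj : ∀ y, y ≠ r → T.Adj y (par y) := by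
    intro y hy
    rw [hT, SimpleGraph.fromRel_adj]
    refine ⟨fun h' => ?_, Or.inl ⟨hy, rfl⟩⟩
    have := h y hy
    rw [← h'] at this
    omega
  have hconn : T.Connected := by
    rw [SimpleGraph.connected_iff_exists_forall_reachable]
    refine ⟨r, ?_⟩
    have : ∀ c y, σ y = c → T.Reachable r y := by
      intro c
      induction c using Nat.strong_induction_on with
      | _ c ih =>
        intro y hy
        by_cases hr : y = r
        · rw [hr]
        · exact (ih _ (hy ▸ h y hr) (par y) rfl).trans (hadj y hr).symm.reachable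
    exact fun y => this _ y rfl
  rw [SimpleGraph.isTree_iff_connected_and_card]
  refine ⟨hconn, le_antisymm ?_ hconn.card_vert_le_card_edgeSet_add_one⟩
  have hsub : T.edgeSet ⊆ ((univ.erase r).image (fun y => s(y, par y)) : Finset _) := by
    intro e he
    induction e using Sym2.ind with
    | _ a b =>
      rw [SimpleGraph.mem_edgeSet, hT, SimpleGraph.fromRel_adj] at he
      simp only [coe_image, coe_erase, coe_univ, Set.mem_image, Set.mem_sdiff, Set.mem_univ,
        Set.mem_singleton_iff, true_and]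
      rcases he.2 with h1 | h1
      · exact ⟨a, h1.1, by rw [h1.2]⟩
      · exact ⟨b, h1.1, by rw [h1.2, Sym2.eq_swap]⟩
  have h1 := Set.ncard_le_ncard hsub (Finset.finite_toSet _)
  rw [Set.ncard_coe_finset] at h1
  have h2 : ((univ.erase r).image (fun y => s(y, par y))).card ≤ (univ.erase r).card :=
    card_image_le
  rw [card_erase_of_mem (mem_univ r), card_univ, Fintype.card_fin] at h2
  rw [Nat.card_coe_set_eq, Nat.card_eq_fintype_card, Fintype.card_fin]
  omega

lemma treewidth_of_rank {n k : ℕ} (G : SimpleGraph (Fin (n + 1))) (ρ : Fin (n + 1) → ℕ)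
    (hne : ∀ x y, G.Adj x y → ρ x ≠ ρ y)
    (hcl : ∀ x x' y, G.Adj x y → G.Adj x' y → ρ x < ρ y → ρ x' < ρ y → x ≠ x' → G.Adj x x')
    (hcard : ∀ y (s : Finset (Fin (n + 1))), (∀ x ∈ s, G.Adj x y ∧ ρ x < ρ y) → s.card ≤ k) :
    TreewidthLE G k := by
  let σ : Fin (n + 1) → ℕ := fun x => ρ x * (n + 1) + x
  have hσ : ∀ x y, ρ x < ρ y → σ x < σ y := by
    intro x y h
    have h1 := Nat.mul_le_mul_right (n + 1) (Nat.succ_le_of_lt h)
    have := x.2
    rw [Nat.succ_mul] at h1
    show ρ x * (n + 1) + x < ρ y * (n + 1) + y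
    omega
  have hσinj : ∀ x y, σ x = σ y → x = y := by
    intro x y h
    rcases Nat.lt_trichotomy (ρ x) (ρ y) with h1 | h1 | h1
    · have := hσ x y h1; omega
    · have h' : ρ x * (n + 1) + x = ρ y * (n + 1) + y := h
      rw [h1] at h'
      exact Fin.ext (by omega)
    · have := hσ y x h1; omega
  obtain ⟨r, _, hr⟩ := exists_min_image univ σ ⟨0, mem_univ _⟩
  let E : Fin (n + 1) → Finset (Fin (n + 1)) :=
    fun y => univ.filter (fun x => G.Adj x y ∧ ρ x < ρ y)
  have hE : ∀ x y, x ∈ E y ↔ G.Adj x y ∧ ρ x < ρ y := by intro x y; simp [E]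
  have hpar : ∀ y, ∃ p, (y ≠ r → σ p < σ y) ∧ ∀ x ∈ E y, p ∈ E y ∧ ρ x ≤ ρ p := by
    intro y
    rcases (E y).eq_empty_or_nonempty with h | h
    · refine ⟨r, fun hy => lt_of_le_of_ne (hr y (mem_univ _)) (fun h' => hy (hσinj _ _ h').symm), ?_⟩
      rw [h]; simp
    · obtain ⟨p, hp, hmax⟩ := exists_max_image (E y) ρ h
      exact ⟨p, fun _ => hσ _ _ ((hE p y).1 hp).2, fun x hx => ⟨hp, hmax x hx⟩⟩
  choose par hpar1 hpar2 using hpar
  refine ⟨n + 1, _, fun y => insert y (E y), isTree_of_parent σ r par hpar1,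
    fun v => ⟨v, mem_insert_self _ _⟩, ?_, ?_, ?_⟩
  · intro u v h
    rcases lt_or_gt_of_ne (hne u v h) with h1 | h1
    · exact ⟨v, mem_insert_of_mem ((hE u v).2 ⟨h, h1⟩), mem_insert_self _ _⟩
    · exact ⟨u, mem_insert_self _ _, mem_insert_of_mem ((hE v u).2 ⟨h.symm, h1⟩)⟩
  · intro v
    rw [SimpleGraph.connected_iff_exists_forall_reachable]
    refine ⟨⟨v, mem_insert_self v (E v)⟩, ?_⟩
    have : ∀ c (y : Fin (n + 1)) (hy : v ∈ insert y (E y)), ρ y = c →
        ((SimpleGraph.fromRel (fun a b => a ≠ r ∧ b = par a)).induce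
          {i | v ∈ insert i (E i)}).Reachable ⟨v, mem_insert_self v (E v)⟩ ⟨y, hy⟩ := by
      intro c
      induction c using Nat.strong_induction_on with
      | _ c ih =>
        intro y hy hc
        rcases mem_insert.1 hy with h | h
        · subst h; rfl
        · obtain ⟨h1, h2⟩ := hpar2 y v h
          obtain ⟨h3, h4⟩ := (hE _ _).1 h1
          obtain ⟨h5, h6⟩ := (hE _ _).1 h
          have hv : v ∈ insert (par y) (E (par y)) := by
            by_cases h7 : v = par y
            · rw [h7]; exact mem_insert_self _ _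
            · have h8 := hcl _ _ _ h5 h3 h6 h4 h7
              exact mem_insert_of_mem ((hE _ _).2 ⟨h8, lt_of_le_of_ne h2 (hne _ _ h8)⟩)
          refine (ih _ (hc ▸ h4) (par y) hv rfl).trans (SimpleGraph.Adj.reachable ?_)
          rw [SimpleGraph.induce_adj, SimpleGraph.fromRel_adj]
          refine ⟨h3.ne, Or.inr ⟨fun h' => ?_, rfl⟩⟩
          have h9 := hσ _ _ h4
          have h10 := hr (par y) (mem_univ _)
          have h' : y = r := h'
          rw [← h'] at h10
          omega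
    exact fun y => this _ y.1 y.2 rfl
  · intro y
    have h1 := card_insert_le y (E y)
    have h2 := hcard y (E y) (fun x hx => (hE x y).1 hx)
    show (insert y (E y)).card ≤ k + 1
    omega

lemma Pre.witness {G : SimpleGraph ℕ} {N k l : ℕ} {ρ : ℕ → ℕ} (h : Pre G N k l ρ) :
    ∃ G' : SimpleGraph (Fin (N + 1)), TreewidthLE G' k ∧
      (∀ n ≤ N + 1, (SimpleGraph.pathGraph n).IsContained G') ∧
      ∀ m, (SimpleGraph.pathGraph m).IsIndContained G' → m ≤ l := by
  refine ⟨G.comap Fin.val, ?_, ?_, ?_⟩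
  · refine treewidth_of_rank _ (fun x => ρ x.val) (fun x y hxy => h.ne _ _ hxy)
      (fun x x' y h1 h2 h3 h4 h5 => h.clique _ _ _ h1 h2 h3 h4 (fun h' => h5 (Fin.ext h'))) ?_
    intro y s hs
    rw [← card_image_of_injective s Fin.val_injective]
    refine h.card y _ ?_
    intro x hx
    obtain ⟨x', hx', rfl⟩ := mem_image.1 hx
    exact hs x' hx'
  · intro n hn
    refine ⟨⟨⟨Fin.castLE hn, ?_⟩, Fin.castLE_injective hn⟩⟩
    intro a b hab
    rw [SimpleGraph.pathGraph_adj] at hab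
    have ha := a.2
    have hb := b.2
    show G.Adj a.val b.val
    rcases hab with h1 | h1
    · rw [← h1]; exact h.cons _ (by omega)
    · rw [← h1]; exact (h.cons _ (by omega)).symm
  · rintro m ⟨φ⟩
    refine h.len (fun i => if hi : i < m then (φ ⟨i, hi⟩).val else 0) m ⟨?_, ?_⟩
    · intro i hi j hj hij
      simp only [hi, hj, dif_pos] at hij
      exact congrArg Fin.val (φ.injective (Fin.ext hij))
    · intro i hi j hj
      simp only [hi, hj, dif_pos]
      have := φ.map_rel_iff (a := ⟨i, hi⟩) (b := ⟨j, hj⟩)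
      rw [SimpleGraph.pathGraph_adj] at this
      exact this

lemma TreewidthLE.mono {V : Type} {G : SimpleGraph V} {k k' : ℕ} (h : TreewidthLE G k)
    (hk : k ≤ k') : TreewidthLE G k' := by
  obtain ⟨t, T, B, h1, h2, h3, h4, h5⟩ := h
  exact ⟨t, T, B, h1, h2, h3, h4, fun i => (h5 i).trans (by omega)⟩

/-- the set whose maximum is `f k n` -/
def FS (k n : ℕ) : Set ℕ :=
  {m : ℕ | ∀ (N : ℕ) (G : SimpleGraph (Fin N)), TreewidthLE G k →
    (SimpleGraph.pathGraph n).IsContained G → (SimpleGraph.pathGraph m).IsIndContained G}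

lemma f_le_of_pre {G : SimpleGraph ℕ} {N k l n : ℕ} {ρ : ℕ → ℕ} (h : Pre G N k l ρ)
    (hn : n ≤ N + 1) : f k n ≤ l := by
  obtain ⟨G', h1, h2, h3⟩ := h.witness
  refine csSup_le ⟨0, fun _ _ _ _ => SimpleGraph.IsIndContained.of_isEmpty⟩ ?_
  intro m hm
  exact h3 m (hm _ G' h1 (h2 n hn))

lemma bddAbove_FS {k : ℕ} (hk : 1 ≤ k) (n : ℕ) : BddAbove (FS k n) := by
  obtain ⟨G', h1, h2, h3⟩ := (pre_path n).witness
  exact ⟨n + 1, fun m hm => h3 m (hm _ G' (h1.mono hk) (h2 n (by omega)))⟩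

lemma exists_extremal {k : ℕ} (hk : 1 ≤ k) (n : ℕ) : ∃ (N : ℕ) (G : SimpleGraph (Fin N)),
    TreewidthLE G k ∧ (SimpleGraph.pathGraph n).IsContained G ∧
      ¬ (SimpleGraph.pathGraph (f k n + 1)).IsIndContained G := by
  by_contra h
  push Not at h
  have h1 : f k n + 1 ≤ f k n := le_csSup (bddAbove_FS hk n) h
  omega

theorem upper_even (j m n : ℕ) (hn : n < 2 ^ ((m + 1) ^ j)) : f (2 * j) n ≤ 12 ^ j * (m + 1) := by
  obtain ⟨G, N, ρ, h1, h2⟩ := iter_pre (m := m) (a := 2) (pre_bot (by omega)) (by omega) j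
  rw [zero_add] at h1
  exact f_le_of_pre h1 (by omega)

theorem upper_odd (j m n : ℕ) (hn : n < (m + 2) ^ ((m + 1) ^ j)) :
    f (2 * j + 1) n ≤ 12 ^ j * (m + 1) := by
  obtain ⟨G, N, ρ, h1, h2⟩ := iter_pre (m := m) (a := m + 2) (pre_path m) le_rfl j
  rw [add_comm 1] at h1
  exact f_le_of_pre h1 (by omega)

end Pool.Agent.Lib.MP_6d7b3f_co
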